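import Mathlib
import Pool.Agent.Y715.T.Sel

/-!
# Cubic characters of `ℚ(ω)` with local conditions
-/

set_option autoImplicit false
set_option linter.unusedSectionVars false

namespace Pool.Agent.N848.Sch

open Pool.Agent.Y692.QS
open Pool.Agent.Y715.T.Gi Pool.Agent.Y715.T.Nr Pool.Agent.Y715.T.Red Pool.Agent.Y715.T.Df
open Pool.Agent.Y715.T.Thr Pool.Agent.Y715.T.Sel
open Pool.Agent.Y715.T.Rec (cs)
open Pool.Agent.Y715.T.RecG (Pq)

variable {i₀ : QB} {hi : i₀ ^ 2 + i₀ + 1 = 0}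

/-! ### Ramification at a prime -/

lemma cf_prime {ρ : Ei} (hρ : Prime ρ) : CF ρ := by
  refine ⟨hρ.ne_zero, ?_⟩
  rintro d ⟨y, hy⟩
  have h1 : ρ = d * (d ^ 2 * y) := by rw [hy]; ring
  rcases hρ.irreducible.isUnit_or_isUnit h1 with h | h
  · exact h
  · have h2 : d ∣ d ^ 2 * y := ⟨d * y, by ring⟩
    exact isUnit_of_dvd_unit h2 h

lemma ram_exp' {ρ : Ei} (hρ : Prime ρ) {h : GK i₀ → ZMod 3} {w : Ei} {x : ℕ}
    (hw : ¬ ρ ∣ w) (hzh : Kc hi (w * ρ ^ x) h) {p : ℕ} [Fact p.Prime] (hp3 : p ≠ 3)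
    (ι : QB →ₐ[ℚ] PadicAlgCl p) (hl : ‖ι (ev i₀ hi ρ)‖ < 1) {τ : Au p} {σ : GK i₀}
    (hc : Cmp ι τ σ) (hτ : Inert τ)
    {c : ZMod 3} (hs : ∀ s : QB, s ^ 3 = ev i₀ hi ρ → σ s = i₀ ^ c.val * s) :
    h σ = x * c := by
  rw [iota_ev] at hl
  have hw0 : w ≠ 0 := by
    rintro rfl
    exact hw (dvd_zero _)
  obtain ⟨r, hr⟩ := ex_root (ev i₀ hi w)
  obtain ⟨t, ht⟩ := ex_root (ev i₀ hi ρ)
  have h1 : τ (ι r) = ι r := by
    refine fix_of_unit (iota_sq hi ι) hp3 (z := w) (by rw [← map_pow, hr, iota_ev]) ?_ hτ hc.fix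
    rwa [← dvd_iff (iota_sq hi ι) hρ hl]
  rw [hc] at h1
  have h2 : σ r = r := ι.injective h1
  have h3 := hzh (r * t ^ x) (by
    rw [mul_pow, hr, ← pow_mul, mul_comm x 3, pow_mul, ht, map_mul, map_pow]) σ
  rw [map_mul, h2, map_pow, hs t ht, mul_pow, ← pow_mul] at h3
  have h0 : r * t ^ x ≠ 0 := mul_ne_zero (root_ne hw0 hr)
    (pow_ne_zero _ (root_ne hρ.ne_zero ht))
  have h4 : i₀ ^ (c.val * x) = i₀ ^ (h σ).val :=
    mul_right_cancel₀ h0 (by rw [← h3]; ring)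
  rw [i₀_mod (hi := hi)] at h4
  have h5 := i₀_inj (hi := hi) h4
  rw [← h5]
  push_cast
  rw [ZMod.natCast_zmod_val]
  ring

/-- ramification of the cube roots of a prime -/
theorem exists_ram {ρ : Ei} (hρ : Prime ρ) {p : ℕ} [Fact p.Prime] (hp3 : p ≠ 3)
    (ι : QB →ₐ[ℚ] PadicAlgCl p) (hl : ‖ι (ev i₀ hi ρ)‖ < 1) :
    ∃ (τ : Au p) (σ : GK i₀) (c : ZMod 3), Cmp ι τ σ ∧ Inert τ ∧ c ≠ 0 ∧
      ∀ s : QB, s ^ 3 = ev i₀ hi ρ → σ s = i₀ ^ c.val * s := by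
  obtain ⟨s, hs⟩ := ex_root (ev i₀ hi ρ)
  have hs0 : s ≠ 0 := root_ne hρ.ne_zero hs
  have hl' := hl
  rw [iota_ev] at hl'
  obtain ⟨τ, hτ, hτI, hτs⟩ : ∃ τ : Au p, Inert τ ∧ τ (ι i₀) = ι i₀ ∧ τ (ι s) ≠ ι s := by
    by_contra hcon
    push Not at hcon
    exact not_dvd_of_fix (iota_sq hi ι) hp3 hρ hl' (cf_prime hρ) (s := ι s)
      (by rw [← map_pow, hs, iota_ev]) hcon dvd_rfl
  obtain ⟨σ, hc⟩ := exists_cmp ι τ hτI
  have h3 : (σ s) ^ 3 = s ^ 3 := by rw [← map_pow, hs, gk_ev]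
  obtain ⟨n, hn⟩ := cube_eq hi h3
  rw [i₀_mod (hi := hi)] at hn
  refine ⟨τ, σ, (n : ZMod 3), hc, hτ, ?_, ?_⟩
  · intro h0
    rw [h0, ZMod.val_zero, pow_zero, one_mul] at hn
    exact hτs (by rw [hc, hn])
  · intro t ht
    obtain ⟨m, hm⟩ := cube_eq hi (ht.trans hs.symm)
    rw [hm, map_mul, map_pow, gk_fix, hn]
    ring

/-! ### Places above three -/

/-- cubes modulo `3 (1 + 2 ω)` -/
lemma not_cube {I : PadicAlgCl 3} (hI : I ^ 2 + I + 1 = 0) {q : Ei}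
    {s : PadicAlgCl 3} (hs : s ^ 3 = ev I hI (1 + 3 * q)) (h : ∀ τ : Au 3, τ I = I → τ s = s) :
    lam ∣ q := by
  have hl := norm_lam hI
  have hlp := lam_pos hI
  have hl1 := norm_lam_lt hI
  have h3n := norm_three'
  have hsI : s ∈ Lf I := fun τ _ hτ => h τ hτ
  have hqn := ev_le hI q
  rw [map_add, map_one, map_mul, map_ofNat] at hs
  have hsn : ‖s‖ = 1 := by
    have h2 : ‖s‖ ^ 3 = 1 := by
      rw [← norm_pow, hs]
      exact norm_one_add hqn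
    exact (pow_eq_one_iff_of_nonneg (norm_nonneg _) three_ne_zero).1 h2
  have h2 : ‖s - 1‖ < 1 := by
    apply lt_of_pow three_ne_zero
    have e : (s - 1) ^ 3 = 3 * (ev I hI q - s ^ 2 + s) := by linear_combination hs
    rw [e, norm_mul, h3n]
    have h3 : ‖ev I hI q - s ^ 2 + s‖ ≤ 1 := add_le (sub_le hqn (pow_le 2 hsn.le)) hsn.le
    linarith
  have h3 := le_lam hI (sub_mem hsI (one_mem _)) h2
  rw [dvd_iff hI prime_lam (lam_lt hI)]
  have h4 : ‖3 * ev I hI q‖ ≤ ‖1 + 2 * I‖ / 3 := by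
    have e : 3 * ev I hI q = (s - 1) ^ 3 + 3 * (s * (s - 1)) := by linear_combination -hs
    rw [e]
    refine add_le ?_ ?_
    · rw [norm_pow]
      calc ‖s - 1‖ ^ 3 ≤ ‖1 + 2 * I‖ ^ 3 := pow_le_pow_left₀ (norm_nonneg _) h3 3
        _ = ‖1 + 2 * I‖ * ‖1 + 2 * I‖ ^ 2 := by ring
        _ = ‖1 + 2 * I‖ / 3 := by rw [hl]; ring
    · rw [norm_mul, norm_mul, h3n, hsn, one_mul]
      linarith
  rw [norm_mul, h3n] at h4
  linarith

/-- the extension is not trivial at the prime above three -/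
theorem exists_three {D : Ei} (h3 : (3 : Ei) ∣ D - 1) (h9 : ¬ (9 : Ei) ∣ D - 1)
    {χ : GK i₀ → ZMod 3} (hχ : Kc hi D χ) (ι : QB →ₐ[ℚ] PadicAlgCl 3) :
    ∃ (τ : Au 3) (σ : GK i₀), Cmp ι τ σ ∧ χ σ ≠ 0 := by
  obtain ⟨s, hs⟩ := ex_root (ev i₀ hi D)
  obtain ⟨q, hq⟩ := h3
  have hD : D = 1 + 3 * q := by rw [← hq]; ring
  have hιs : (ι s) ^ 3 = ev (ι i₀) (iota_sq hi ι) D := by rw [← map_pow, hs, iota_ev]
  obtain ⟨τ, hτ, hτs⟩ : ∃ τ : Au 3, τ (ι i₀) = ι i₀ ∧ τ (ι s) ≠ ι s := by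
    by_contra hcon
    push Not at hcon
    have h1 := not_cube (iota_sq hi ι) (by rw [hιs, hD]) hcon
    obtain ⟨t, rfl⟩ := h1
    have h2 : ¬ lam ∣ t := by
      rintro ⟨t', rfl⟩
      apply h9
      refine ⟨-t', ?_⟩
      rw [hq]
      have := lam_sq
      calc 3 * (lam * (lam * t')) = 3 * lam ^ 2 * t' := by ring
        _ = 9 * -t' := by rw [this]; ring
    obtain ⟨τ, hτ, hτs⟩ := not_split (iota_sq hi ι) (c := D) (t := t) (by rw [hD]; ring) hιs h2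
    exact hτs (hcon τ hτ)
  obtain ⟨σ, hc⟩ := exists_cmp ι τ hτ
  refine ⟨τ, σ, hc, fun h0 => hτs ?_⟩
  rw [hc, hχ s hs σ, h0, ZMod.val_zero, pow_zero, one_mul]

/-! ### The main lemma -/

section main

variable {J : Type} [Fintype J] [DecidableEq J] {π : J → Ei} {e : J → ZMod 3}

/-- different primary primes -/
structure PP {J : Type} (π : J → Ei) : Prop where
  pq : ∀ j, Pq (π j)
  nd : ∀ i j, i ≠ j → ¬ π j ∣ π i

lemma pq_not_lam {ρ : Ei} (h : Pq ρ) : ¬ ρ ∣ lam := by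
  intro h1
  apply h.norm
  have e : (3 : Ei) = -(lam * lam) := by
    have := lam_sq
    rw [pow_two] at this
    rw [this, neg_neg]
  rw [e]
  exact (dvd_neg).2 (Dvd.dvd.mul_right h1 _)

lemma pq_not_assoc {ρ : Ei} (h : Pq ρ) : ¬ Associated ρ lam := fun h1 => pq_not_lam h h1.dvd

lemma PP.p0 (h : PP π) (j : J) : π j ≠ 0 := (h.pq j).prime.ne_zero

lemma PP.not_dvd_prod (h : PP π) (j : J) (x : J → ℕ) :
    ¬ π j ∣ ∏ i ∈ Finset.univ.erase j, π i ^ x i := by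
  rw [(h.pq j).prime.dvd_finsetProd_iff]
  rintro ⟨i, hij, hd⟩
  exact h.nd i j (Finset.ne_of_mem_erase hij) ((h.pq j).prime.dvd_of_dvd_pow hd)

lemma PP.prod_form (h : PP π) (x : J → ℕ) : (3 : Ei) ∣ ∏ j, π j ^ x j - 1 := by
  have h1 : ∀ S : Finset J, (3 : Ei) ∣ ∏ j ∈ S, π j ^ x j - 1 := by
    intro S
    induction S using Finset.induction_on with
    | empty => simp
    | insert i S his ih =>
      rw [Finset.prod_insert his]
      have h2 : (3 : Ei) ∣ π i ^ x i - 1 := by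
        have h4 := sub_dvd_pow_sub_pow (π i) 1 (x i)
        rw [one_pow] at h4
        exact dvd_trans (h.pq i).three h4
      have e1 : π i ^ x i * ∏ j ∈ S, π j ^ x j - 1 =
          (π i ^ x i - 1) * ∏ j ∈ S, π j ^ x j + (∏ j ∈ S, π j ^ x j - 1) := by ring
      rw [e1]
      exact dvd_add (Dvd.dvd.mul_right h2 _) ih
  exact h1 Finset.univ

/-- **Cubic characters with local conditions are trivial.** -/
theorem kfin (hπ : PP π) (he : ∀ j, e j ≠ 0)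
    (hker : ∀ v : J → ZMod 3, (∀ j, ∑ i, e i * cs (π j) (π i) * (v i - v j) = 0) →
      ∀ i j, v i = v j)
    {χ : GK i₀ → ZMod 3} (hχ : Kc hi (∏ j, π j ^ (e j).val) χ)
    {ψ : GK i₀ → ZMod 3} (hlc : IsLocallyConstant ψ) (hm : ∀ σ τ, ψ (σ * τ) = ψ σ + ψ τ)
    (h1 : ∀ (p : ℕ) [Fact p.Prime] (ι : QB →ₐ[ℚ] PadicAlgCl p), p ≠ 3 →
      (∀ j, ¬ ‖ι (ev i₀ hi (π j))‖ < 1) → ∀ (τ : Au p) (σ : GK i₀), Cmp ι τ σ → Inert τ → ψ σ = 0)
    (h2 : ∀ (j : J) (p : ℕ) [Fact p.Prime] (ι : QB →ₐ[ℚ] PadicAlgCl p), p ≠ 3 →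
      ‖ι (ev i₀ hi (π j))‖ < 1 → ∃ t : ZMod 3, ∀ (τ : Au p) (σ : GK i₀), Cmp ι τ σ →
        ψ σ = t * χ σ)
    (ι₃ : QB →ₐ[ℚ] PadicAlgCl 3)
    (h3 : ∀ (τ : Au 3) (σ : GK i₀), Cmp ι₃ τ σ → ψ σ = 0)
    (h4 : Nonempty J → ∃ (τ : Au 3) (σ : GK i₀), Cmp ι₃ τ σ ∧ χ σ ≠ 0) (σ : GK i₀) :
    ψ σ = 0 := by
  obtain ⟨z, hz, hzh⟩ := kum hi ψ hlc hm
  have hsupp : ∀ ρ : Ei, Prime ρ → ρ ∣ z → Associated ρ lam ∨ ∃ j, Associated ρ (π j) := by
    intro ρ hρ hd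
    by_contra hcon
    push Not at hcon
    obtain ⟨p, hp, ι, hl⟩ := exists_emb hi hρ
    have hp3 := odd_of hi ι hρ hl hcon.1
    refine not_dvd_of_unr hz hzh hp3 ι hρ hl (h1 p ι hp3 fun j hj => hcon.2 j ?_) hd
    rw [iota_ev] at hl hj
    exact (hρ.dvd_prime_iff_associated (hπ.pq j).prime).1
      ((dvd_iff (iota_sq hi ι) hρ hl _).2 hj)
  obtain ⟨u, g, x, hu, ez⟩ := fac (π := π) z hz.1 hsupp
  have h0 : ∀ f : J → ℕ, ∏ j, π j ^ f j ≠ 0 := fun f =>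
    Finset.prod_ne_zero_iff.2 fun j _ => pow_ne_zero _ (hπ.p0 j)
  -- the place above three
  obtain ⟨q, hq⟩ := hπ.prod_form x
  have hq' : ∏ j, π j ^ x j = 1 + 3 * q := by rw [← hq]; ring
  have hx : Kc hi (∏ j, π j ^ x j) ψ := by
    obtain ⟨s, hs⟩ := ex_root (ev i₀ hi z)
    have hv : ι₃ s ∈ Lf (ι₃ i₀) := by
      intro τ _ hτI
      obtain ⟨σ, hc⟩ := exists_cmp ι₃ τ hτI
      rw [hc, hzh s hs σ, h3 τ σ hc, ZMod.val_zero, pow_zero, one_mul]
    obtain ⟨⟨g', hg'⟩, hu1⟩ := gen (iota_sq hi ι₃) hu hv (z := 0) (by rw [norm_zero]; exact zero_le_one)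
      (zero_mem _) (q := q) (g := g) (by
        rw [mul_zero, add_zero, mul_one, ← map_pow, hs, iota_ev, ez, hq'])
    refine kc_unit (h0 x) hu1 (kc_cancel (z' := lam ^ g') ?_ (pow_ne_zero _ prime_lam.ne_zero) ?_)
    · exact mul_ne_zero hu.ne_zero (h0 x)
    · have e1 : u * (∏ j, π j ^ x j) * (lam ^ g') ^ 3 = u * lam ^ g * ∏ j, π j ^ x j := by
        rw [hg', ← pow_mul, mul_comm g' 3]
        ring
      rw [e1, ← ez]
      exact hzh
  have hesq : ∀ j, e j * e j = 1 := by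
    intro j
    have h := he j
    generalize e j = c at *
    revert c
    decide
  set v : J → ZMod 3 := fun j => x j * e j with hv
  have hxv : ∀ j, (x j : ZMod 3) = e j * v j := by
    intro j
    have := hesq j
    calc (x j : ZMod 3) = x j * (e j * e j) := by rw [this, mul_one]
      _ = _ := by rw [hv]; ring
  have heq : ∀ j, ∑ i, e i * cs (π j) (π i) * (v i - v j) = 0 := by
    intro j
    obtain ⟨p, hp, ι, hl⟩ := exists_emb hi (hπ.pq j).prime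
    have hp3 := odd_of hi ι (hπ.pq j).prime hl (pq_not_assoc (hπ.pq j))
    obtain ⟨t, ht⟩ := h2 j p ι hp3 hl
    obtain ⟨τ₁, σ₁, c, hc₁, hτ₁, hc0, hs₁⟩ := exists_ram (hπ.pq j).prime hp3 ι hl
    have split : ∀ f : J → ℕ, ∏ i, π i ^ f i =
        (∏ i ∈ Finset.univ.erase j, π i ^ f i) * π j ^ f j := fun f => by
      rw [← Finset.mul_prod_erase Finset.univ (fun i => π i ^ f i) (Finset.mem_univ j)]
      ring
    have hψ₁ : ψ σ₁ = x j * c := by
      refine ram_exp' (hπ.pq j).prime (hπ.not_dvd_prod j x) ?_ hp3 ι hl hc₁ hτ₁ hs₁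
      rw [← split]
      exact hx
    have hχ₁ : χ σ₁ = e j * c := by
      have := ram_exp' (x := (e j).val) (hπ.pq j).prime
        (hπ.not_dvd_prod j (fun j => (e j).val)) (by
          rw [← split (fun j => (e j).val)]
          exact hχ) hp3 ι hl hc₁ hτ₁ hs₁
      rw [this, ZMod.natCast_zmod_val]
    have htv : t = v j := by
      have h5 := ht τ₁ σ₁ hc₁
      rw [hψ₁, hχ₁] at h5
      have h6 := hesq j
      have h7 : (x j : ZMod 3) = t * e j := by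
        have h8 : ∀ a b d : ZMod 3, d ≠ 0 → a * d = b * d → a = b := by decide
        exact h8 _ _ c hc0 (by rw [h5]; ring)
      rw [hv]
      show t = x j * e j
      rw [h7, mul_assoc, h6, mul_one]
    -- the character that is trivial at `π j`
    set n : ℕ := (-v j).val with hn
    have hn3 : (n : ZMod 3) = -v j := ZMod.natCast_zmod_val _
    have hy := kc_mul (h0 x) (pow_ne_zero n (h0 _)) hx (kc_pow (h0 _) hχ n)
    have hy1 : ∀ (τ : Au p) (σ : GK i₀), Cmp ι τ σ → ψ σ + n * χ σ = 0 := by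
      intro τ σ hcc
      rw [ht τ σ hcc, htv, hn3]
      ring
    set y : J → ℕ := fun i => x i + (e i).val * n with hydef
    have ey : (∏ i, π i ^ x i) * (∏ i, π i ^ (e i).val) ^ n = ∏ i, π i ^ y i := by
      rw [← Finset.prod_pow, ← Finset.prod_mul_distrib]
      refine Finset.prod_congr rfl fun i _ => ?_
      rw [← pow_mul, ← pow_add]
    rw [ey] at hy
    have hycast : ∀ i, (y i : ZMod 3) = e i * (v i - v j) := by
      intro i
      rw [hydef]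
      push_cast
      rw [hn3, hxv i, ZMod.natCast_zmod_val]
      ring
    obtain ⟨l, hl3⟩ : 3 ∣ y j := by
      rw [← ZMod.natCast_eq_zero_iff, hycast j, sub_self, mul_zero]
    have hW0 : ∏ i ∈ Finset.univ.erase j, π i ^ y i ≠ 0 :=
      Finset.prod_ne_zero_iff.2 fun i _ => pow_ne_zero _ (hπ.p0 i)
    have hW : Kc hi (∏ i ∈ Finset.univ.erase j, π i ^ y i)
        (fun σ => ψ σ + n * χ σ) := by
      refine kc_cancel (z' := π j ^ l) hW0 (pow_ne_zero _ (hπ.p0 j)) ?_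
      have e1 : (∏ i ∈ Finset.univ.erase j, π i ^ y i) * (π j ^ l) ^ 3 = ∏ i, π i ^ y i := by
        rw [split, ← pow_mul, mul_comm l 3, ← hl3]
      rw [e1]
      exact hy
    have hcube := resid_kc hW hp3 ι (hπ.pq j).prime hl hy1
    have hnd := hπ.not_dvd_prod j y
    have h9 := (hπ.pq j).norm
    have hpj := (hπ.pq j).prime
    have hcs := (Pool.Agent.Y715.T.RecG.cs_zero_iff hpj h9 hnd).2 hcube
    have hnd1 : ∀ i ∈ Finset.univ.erase j, ¬ π j ∣ π i := fun i hij =>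
      hπ.nd i j (Finset.ne_of_mem_erase hij)
    rw [Pool.Agent.Y715.T.RecG.cs_prod hpj h9 _ _
      (fun i hij h1 => hnd1 i hij (hpj.dvd_of_dvd_pow h1))] at hcs
    rw [← Finset.add_sum_erase Finset.univ _ (Finset.mem_univ j), sub_self, mul_zero, zero_add,
      ← hcs]
    refine Finset.sum_congr rfl fun i hij => ?_
    rw [Pool.Agent.Y715.T.RecG.cs_pow hpj h9 (hnd1 i hij), hycast i]
    ring
  have hconst := hker v heq
  -- conclusion
  rcases isEmpty_or_nonempty J with hJ | hJ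
  · rw [Finset.univ_eq_empty, Finset.prod_empty] at hx
    exact kc_uniq one_ne_zero hx kc_one σ
  · obtain ⟨j₀⟩ := id hJ
    have hall : ∀ σ, ψ σ = v j₀ * χ σ := by
      intro σ
      have h5 : Kc hi (∏ j, π j ^ ((e j).val * (v j₀).val)) ψ := by
        refine kc_exp hπ.p0 (fun j => ?_) hx
        rw [hxv j, hconst j j₀]
        push_cast
        rw [ZMod.natCast_zmod_val, ZMod.natCast_zmod_val]
      have h6 := kc_pow (h0 _) hχ (v j₀).val
      have e1 : (∏ i, π i ^ (e i).val) ^ (v j₀).val = ∏ j, π j ^ ((e j).val * (v j₀).val) := by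
        rw [← Finset.prod_pow]
        refine Finset.prod_congr rfl fun i _ => ?_
        rw [← pow_mul]
      rw [e1] at h6
      have h7 := kc_uniq (h0 _) h5 h6 σ
      rw [h7, ZMod.natCast_zmod_val]
    obtain ⟨τ₀, σ₀, hc₀, hσ₀⟩ := h4 hJ
    have h8 := h3 τ₀ σ₀ hc₀
    rw [hall σ₀] at h8
    rw [hall σ]
    rcases mul_eq_zero.1 h8 with h9 | h9
    · rw [h9, zero_mul]
    · exact absurd h9 hσ₀

end main

end Pool.Agent.N848.Sch
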