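import Mathlib
import Pool.Agent.N848.Sch.C

/-!
# Cubic characters of `ℚ(ω)` with local conditions: the number of them
-/

set_option autoImplicit false
set_option linter.unusedSectionVars false

namespace Pool.Agent.N848.Sch

open Pool.Agent.Y692.QS
open Pool.Agent.Y715.T.Gi Pool.Agent.Y715.T.Nr Pool.Agent.Y715.T.Red Pool.Agent.Y715.T.Df
open Pool.Agent.Y715.T.Thr Pool.Agent.Y715.T.Sel
open Pool.Agent.Y715.T.Rec (cs)
open Pool.Agent.Y715.T.RecG (Pq)

variable {i₀ : QB} {hi : i₀ ^ 2 + i₀ + 1 = 0}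
  {J : Type} [Fintype J] [DecidableEq J] {π : J → Ei} {e : J → ZMod 3}

/-- the local conditions -/
structure LCond (hi : i₀ ^ 2 + i₀ + 1 = 0) (π : J → Ei) (χ : GK i₀ → ZMod 3)
    (ι₃ : QB →ₐ[ℚ] PadicAlgCl 3) (ψ : GK i₀ → ZMod 3) : Prop where
  lc : IsLocallyConstant ψ
  mul : ∀ σ τ, ψ (σ * τ) = ψ σ + ψ τ
  un : ∀ (p : ℕ) [Fact p.Prime] (ι : QB →ₐ[ℚ] PadicAlgCl p), p ≠ 3 →
      (∀ j, ¬ ‖ι (ev i₀ hi (π j))‖ < 1) → ∀ (τ : Au p) (σ : GK i₀), Cmp ι τ σ → Inert τ → ψ σ = 0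
  ram : ∀ (j : J) (p : ℕ) [Fact p.Prime] (ι : QB →ₐ[ℚ] PadicAlgCl p), p ≠ 3 →
      ‖ι (ev i₀ hi (π j))‖ < 1 → ∃ t : ZMod 3, ∀ (τ : Au p) (σ : GK i₀), Cmp ι τ σ →
        ψ σ = t * χ σ
  three : ∀ (τ : Au 3) (σ : GK i₀), Cmp ι₃ τ σ → ψ σ = 0

/-- the solutions of the Laplacian system -/
def Lap (π : J → Ei) (e : J → ZMod 3) : Set (J → ZMod 3) :=
  {v | ∀ j, ∑ i, e i * cs (π j) (π i) * (v i - v j) = 0}

/-- **The vector of a character.** -/
theorem kvec (hπ : PP π) (he : ∀ j, e j ≠ 0)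
    {χ : GK i₀ → ZMod 3} (hχ : Kc hi (∏ j, π j ^ (e j).val) χ)
    {ι₃ : QB →ₐ[ℚ] PadicAlgCl 3} {ψ : GK i₀ → ZMod 3} (h : LCond hi π χ ι₃ ψ) :
    ∃ v ∈ Lap π e, Kc hi (∏ j, π j ^ (e j * v j).val) ψ := by
  obtain ⟨hlc, hm, h1, h2, h3⟩ := h
  obtain ⟨z, hz, hzh⟩ := kum hi ψ hlc hm
  have hsupp : ∀ ρ : Ei, Prime ρ → ρ ∣ z → Associated ρ lam ∨ ∃ j, Associated ρ (π j) := by
    intro ρ hρ hd
    by_contra hcon
    push Not at hcon
    obtain ⟨p, hp, ι, hl⟩ := exists_emb hi hρ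
    have hp3 := odd_of hi ι hρ hl hcon.1
    refine not_dvd_of_unr hz hzh hp3 ι hρ hl (h1 p ι hp3 fun j hj => hcon.2 j ?_) hd
    rw [iota_ev] at hl hj
    exact (hρ.dvd_prime_iff_associated (hπ.pq j).prime).1
      ((dvd_iff (iota_sq hi ι) hρ hl _).2 hj)
  obtain ⟨u, g, x, hu, ez⟩ := fac (π := π) z hz.1 hsupp
  have h0 : ∀ f : J → ℕ, ∏ j, π j ^ f j ≠ 0 := fun f =>
    Finset.prod_ne_zero_iff.2 fun j _ => pow_ne_zero _ (hπ.p0 j)
  -- the place above three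
  obtain ⟨q, hq⟩ := hπ.prod_form x
  have hq' : ∏ j, π j ^ x j = 1 + 3 * q := by rw [← hq]; ring
  have hx : Kc hi (∏ j, π j ^ x j) ψ := by
    obtain ⟨s, hs⟩ := ex_root (ev i₀ hi z)
    have hv : ι₃ s ∈ Lf (ι₃ i₀) := by
      intro τ _ hτI
      obtain ⟨σ, hc⟩ := exists_cmp ι₃ τ hτI
      rw [hc, hzh s hs σ, h3 τ σ hc, ZMod.val_zero, pow_zero, one_mul]
    obtain ⟨⟨g', hg'⟩, hu1⟩ := gen (iota_sq hi ι₃) hu hv (z := 0) (by rw [norm_zero]; exact zero_le_one)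
      (zero_mem _) (q := q) (g := g) (by
        rw [mul_zero, add_zero, mul_one, ← map_pow, hs, iota_ev, ez, hq'])
    refine kc_unit (h0 x) hu1 (kc_cancel (z' := lam ^ g') ?_ (pow_ne_zero _ prime_lam.ne_zero) ?_)
    · exact mul_ne_zero hu.ne_zero (h0 x)
    · have e1 : u * (∏ j, π j ^ x j) * (lam ^ g') ^ 3 = u * lam ^ g * ∏ j, π j ^ x j := by
        rw [hg', ← pow_mul, mul_comm g' 3]
        ring
      rw [e1, ← ez]
      exact hzh
  have hesq : ∀ j, e j * e j = 1 := by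
    intro j
    have h := he j
    generalize e j = c at *
    revert c
    decide
  set v : J → ZMod 3 := fun j => x j * e j with hv
  have hxv : ∀ j, (x j : ZMod 3) = e j * v j := by
    intro j
    have := hesq j
    calc (x j : ZMod 3) = x j * (e j * e j) := by rw [this, mul_one]
      _ = _ := by rw [hv]; ring
  refine ⟨v, ?_, ?_⟩
  · intro j
    obtain ⟨p, hp, ι, hl⟩ := exists_emb hi (hπ.pq j).prime
    have hp3 := odd_of hi ι (hπ.pq j).prime hl (pq_not_assoc (hπ.pq j))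
    obtain ⟨t, ht⟩ := h2 j p ι hp3 hl
    obtain ⟨τ₁, σ₁, c, hc₁, hτ₁, hc0, hs₁⟩ := exists_ram (hπ.pq j).prime hp3 ι hl
    have split : ∀ f : J → ℕ, ∏ i, π i ^ f i =
        (∏ i ∈ Finset.univ.erase j, π i ^ f i) * π j ^ f j := fun f => by
      rw [← Finset.mul_prod_erase Finset.univ (fun i => π i ^ f i) (Finset.mem_univ j)]
      ring
    have hψ₁ : ψ σ₁ = x j * c := by
      refine ram_exp' (hπ.pq j).prime (hπ.not_dvd_prod j x) ?_ hp3 ι hl hc₁ hτ₁ hs₁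
      rw [← split]
      exact hx
    have hχ₁ : χ σ₁ = e j * c := by
      have := ram_exp' (x := (e j).val) (hπ.pq j).prime
        (hπ.not_dvd_prod j (fun j => (e j).val)) (by
          rw [← split (fun j => (e j).val)]
          exact hχ) hp3 ι hl hc₁ hτ₁ hs₁
      rw [this, ZMod.natCast_zmod_val]
    have htv : t = v j := by
      have h5 := ht τ₁ σ₁ hc₁
      rw [hψ₁, hχ₁] at h5
      have h6 := hesq j
      have h7 : (x j : ZMod 3) = t * e j := by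
        have h8 : ∀ a b d : ZMod 3, d ≠ 0 → a * d = b * d → a = b := by decide
        exact h8 _ _ c hc0 (by rw [h5]; ring)
      rw [hv]
      show t = x j * e j
      rw [h7, mul_assoc, h6, mul_one]
    -- the character that is trivial at `π j`
    set n : ℕ := (-v j).val with hn
    have hn3 : (n : ZMod 3) = -v j := ZMod.natCast_zmod_val _
    have hy := kc_mul (h0 x) (pow_ne_zero n (h0 _)) hx (kc_pow (h0 _) hχ n)
    have hy1 : ∀ (τ : Au p) (σ : GK i₀), Cmp ι τ σ → ψ σ + n * χ σ = 0 := by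
      intro τ σ hcc
      rw [ht τ σ hcc, htv, hn3]
      ring
    set y : J → ℕ := fun i => x i + (e i).val * n with hydef
    have ey : (∏ i, π i ^ x i) * (∏ i, π i ^ (e i).val) ^ n = ∏ i, π i ^ y i := by
      rw [← Finset.prod_pow, ← Finset.prod_mul_distrib]
      refine Finset.prod_congr rfl fun i _ => ?_
      rw [← pow_mul, ← pow_add]
    rw [ey] at hy
    have hycast : ∀ i, (y i : ZMod 3) = e i * (v i - v j) := by
      intro i
      rw [hydef]
      push_cast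
      rw [hn3, hxv i, ZMod.natCast_zmod_val]
      ring
    obtain ⟨l, hl3⟩ : 3 ∣ y j := by
      rw [← ZMod.natCast_eq_zero_iff, hycast j, sub_self, mul_zero]
    have hW0 : ∏ i ∈ Finset.univ.erase j, π i ^ y i ≠ 0 :=
      Finset.prod_ne_zero_iff.2 fun i _ => pow_ne_zero _ (hπ.p0 i)
    have hW : Kc hi (∏ i ∈ Finset.univ.erase j, π i ^ y i)
        (fun σ => ψ σ + n * χ σ) := by
      refine kc_cancel (z' := π j ^ l) hW0 (pow_ne_zero _ (hπ.p0 j)) ?_
      have e1 : (∏ i ∈ Finset.univ.erase j, π i ^ y i) * (π j ^ l) ^ 3 = ∏ i, π i ^ y i := by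
        rw [split, ← pow_mul, mul_comm l 3, ← hl3]
      rw [e1]
      exact hy
    have hcube := resid_kc hW hp3 ι (hπ.pq j).prime hl hy1
    have hnd := hπ.not_dvd_prod j y
    have h9 := (hπ.pq j).norm
    have hpj := (hπ.pq j).prime
    have hcs := (Pool.Agent.Y715.T.RecG.cs_zero_iff hpj h9 hnd).2 hcube
    have hnd1 : ∀ i ∈ Finset.univ.erase j, ¬ π j ∣ π i := fun i hij =>
      hπ.nd i j (Finset.ne_of_mem_erase hij)
    rw [Pool.Agent.Y715.T.RecG.cs_prod hpj h9 _ _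
      (fun i hij h1 => hnd1 i hij (hpj.dvd_of_dvd_pow h1))] at hcs
    rw [← Finset.add_sum_erase Finset.univ _ (Finset.mem_univ j), sub_self, mul_zero, zero_add,
      ← hcs]
    refine Finset.sum_congr rfl fun i hij => ?_
    rw [Pool.Agent.Y715.T.RecG.cs_pow hpj h9 (hnd1 i hij), hycast i]
    ring
  · refine kc_exp hπ.p0 (fun j => ?_) hx
    rw [hxv j, ZMod.natCast_zmod_val]

/-- The vector modulo the constants determines the character. -/
theorem kvec_inj (hπ : PP π) {χ : GK i₀ → ZMod 3} (hχ : Kc hi (∏ j, π j ^ (e j).val) χ)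
    {ι₃ : QB →ₐ[ℚ] PadicAlgCl 3}
    (h4 : Nonempty J → ∃ (τ : Au 3) (σ : GK i₀), Cmp ι₃ τ σ ∧ χ σ ≠ 0)
    {ψ ψ' : GK i₀ → ZMod 3} (h : LCond hi π χ ι₃ ψ) (h' : LCond hi π χ ι₃ ψ')
    {v v' : J → ZMod 3} (hv : Kc hi (∏ j, π j ^ (e j * v j).val) ψ)
    (hv' : Kc hi (∏ j, π j ^ (e j * v' j).val) ψ') {c : ZMod 3} (hc : ∀ j, v j = v' j + c) :
    ψ = ψ' := by
  have h0 : ∀ f : J → ℕ, ∏ j, π j ^ f j ≠ 0 := fun f =>
    Finset.prod_ne_zero_iff.2 fun j _ => pow_ne_zero _ (hπ.p0 j)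
  rcases isEmpty_or_nonempty J with hJ | hJ
  · rw [Finset.univ_eq_empty, Finset.prod_empty] at hv hv'
    exact funext fun σ => kc_uniq one_ne_zero hv hv' σ
  · have hall : ∀ σ, ψ σ = ψ' σ + c * χ σ := by
      intro σ
      have h5 : Kc hi (∏ j, π j ^ ((e j * v' j).val + (e j).val * c.val)) ψ := by
        refine kc_exp hπ.p0 (fun j => ?_) hv
        push_cast
        rw [ZMod.natCast_zmod_val, ZMod.natCast_zmod_val, ZMod.natCast_zmod_val,
          ZMod.natCast_zmod_val, hc j]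
        ring
      have h6 := kc_mul (h0 _) (pow_ne_zero c.val (h0 _)) hv' (kc_pow (h0 _) hχ c.val)
      have e1 : (∏ j, π j ^ (e j * v' j).val) * (∏ i, π i ^ (e i).val) ^ c.val =
          ∏ j, π j ^ ((e j * v' j).val + (e j).val * c.val) := by
        rw [← Finset.prod_pow, ← Finset.prod_mul_distrib]
        refine Finset.prod_congr rfl fun i _ => ?_
        rw [← pow_mul, ← pow_add]
      rw [e1] at h6
      have h7 := kc_uniq (h0 _) h5 h6 σ
      rw [h7, ZMod.natCast_zmod_val]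
    obtain ⟨τ₀, σ₀, hc₀, hσ₀⟩ := h4 hJ
    have h8 := hall σ₀
    rw [h.three τ₀ σ₀ hc₀, h'.three τ₀ σ₀ hc₀, zero_add] at h8
    rcases mul_eq_zero.1 h8.symm with h9 | h9
    · funext σ
      rw [hall σ, h9, zero_mul, add_zero]
    · exact absurd h9 hσ₀

/-- **The number of the characters.** -/
theorem ucard (hπ : PP π) (he : ∀ j, e j ≠ 0) [Nonempty J]
    {χ : GK i₀ → ZMod 3} (hχ : Kc hi (∏ j, π j ^ (e j).val) χ) {ι₃ : QB →ₐ[ℚ] PadicAlgCl 3}
    (h4 : ∃ (τ : Au 3) (σ : GK i₀), Cmp ι₃ τ σ ∧ χ σ ≠ 0)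
    {A : Type} [Fintype A] (Ψ : A → GK i₀ → ZMod 3) (hinj : Function.Injective Ψ)
    (h : ∀ a, LCond hi π χ ι₃ (Ψ a)) : Fintype.card A * 3 ≤ (Lap π e).ncard := by
  choose v hv hvk using fun a => kvec hπ he hχ (h a)
  have hf : Function.Injective fun x : A × ZMod 3 => fun j => v x.1 j + x.2 := by
    rintro ⟨a, c⟩ ⟨b, d⟩ hab
    have h1 : ∀ j, v a j + c = v b j + d := fun j => congrFun hab j
    have h2 : Ψ a = Ψ b := by
      refine kvec_inj hπ hχ (fun _ => h4) (h a) (h b) (hvk a) (hvk b) (c := d - c) fun j => ?_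
      linear_combination h1 j
    have h3 := hinj h2
    subst h3
    have h5 := h1 (Classical.arbitrary J)
    rw [add_right_inj] at h5
    rw [h5]
  have h1 : (Set.range fun x : A × ZMod 3 => fun j => v x.1 j + x.2) ⊆ Lap π e := by
    rintro _ ⟨⟨a, c⟩, rfl⟩ j
    have := hv a j
    simpa using this
  have h2 := Set.ncard_le_ncard h1 (Set.toFinite _)
  rw [Set.ncard_range_of_injective hf, Nat.card_eq_fintype_card, Fintype.card_prod,
    ZMod.card] at h2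
  exact h2

/-- no characters without ramified primes -/
theorem kfin0 {ι₃ : QB →ₐ[ℚ] PadicAlgCl 3} {ψ : GK i₀ → ZMod 3}
    (h : LCond hi (fun x : Empty => x.elim) (fun _ => 0) ι₃ ψ) (σ : GK i₀) : ψ σ = 0 := by
  obtain ⟨v, -, hv⟩ := kvec (e := fun x : Empty => x.elim) ⟨fun j => j.elim, fun i => i.elim⟩
    (fun j => j.elim) (by
      rw [Finset.univ_eq_empty, Finset.prod_empty]
      exact kc_one) h
  rw [Finset.univ_eq_empty, Finset.prod_empty] at hv
  exact kc_uniq one_ne_zero hv kc_one σ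

end Pool.Agent.N848.Sch
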