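import Mathlib
import Pool.Agent.Y715.T.Nr

/-!
# Cocycles with values in extensions of `ℚ_3` and their residues
-/

set_option autoImplicit false
set_option linter.unusedSectionVars false

namespace Pool.Agent.N848.Sch

open Pool.Agent.Y715.T.Red Pool.Agent.Y715.T.Nr

/-- the algebraic closure of `ℚ_3` -/
abbrev Om : Type := PadicAlgCl 3

lemma norm_three : ‖(3 : Om)‖ = 3⁻¹ := by
  have := Pool.Agent.W571.RK.norm_p_Om (p := 3)
  exact_mod_cast this

/-- an integer is small iff it is divisible by three -/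
lemma int_small {n : ℤ} (h : ‖(n : Om)‖ < 1) : (n : ZMod 3) = 0 := by
  have h3 : ‖((n : ℚ_[3]) : ℚ_[3])‖ < 1 := by
    rw [← PadicAlgCl.norm_extends 3]
    have e : ((n : ℚ_[3]) : Om) = (n : Om) := by
      show algebraMap ℚ_[3] (PadicAlgCl 3) _ = _
      rw [map_intCast]
    rw [e]
    exact h
  rw [Padic.norm_intCast_lt_one_iff] at h3
  rw [ZMod.intCast_zmod_eq_zero_iff_dvd]
  exact_mod_cast h3

/-- the residue field of the field `F` is the field with three elements -/
def RF (F : Subfield Om) : Prop := ∀ x ∈ F, ‖x‖ ≤ 1 → ∃ n : ℤ, ‖x - n‖ < 1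

section

variable {G : Type} [Group G] [TopologicalSpace G] [IsTopologicalGroup G] [CompactSpace G]

/-- a continuous cocycle -/
structure Coc (ρ : G → Om) (c : G → Om) : Prop where
  cont : Continuous c
  mul : ∀ g h, c (g * h) = c g + ρ g * c h

variable {ρ c : G → Om}

/-- the residue of a cocycle -/
theorem residue_hom {F : Subfield Om} (hF : RF F) (hρ1 : ∀ g, ‖ρ g - 1‖ < 1)
    (hc : Coc ρ c) (hcF : ∀ g, c g ∈ F) (hne : ∃ g, c g ≠ 0) :
    ∃ (u : Om) (ψ : G → ZMod 3), u ≠ 0 ∧ (∀ g, ‖u * c g‖ ≤ 1) ∧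
      (∀ (g : G) (n : ℤ), ‖u * c g - n‖ < 1 → ψ g = n) ∧
      (∀ g, ∃ n : ℤ, ‖u * c g - n‖ < 1) ∧
      IsLocallyConstant ψ ∧ (∀ g h, ψ (g * h) = ψ g + ψ h) ∧ ∃ g, ψ g ≠ 0 := by
  obtain ⟨g0, -, hmax⟩ := isCompact_univ.exists_isMaxOn (Set.univ_nonempty)
    (hc.cont.norm.continuousOn (s := Set.univ))
  have hmax' : ∀ g, ‖c g‖ ≤ ‖c g0‖ := fun g => hmax (Set.mem_univ g)
  have h0 : c g0 ≠ 0 := by
    obtain ⟨g, hg⟩ := hne
    intro h
    have := hmax' g
    rw [h, norm_zero] at this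
    exact hg (norm_le_zero_iff.1 this)
  have hn0 : 0 < ‖c g0‖ := norm_pos_iff.2 h0
  set u : Om := (c g0)⁻¹ with hu
  have hu0 : u ≠ 0 := inv_ne_zero h0
  have hle : ∀ g, ‖u * c g‖ ≤ 1 := by
    intro g
    rw [hu, norm_mul, norm_inv, inv_mul_le_one₀ hn0]
    exact hmax' g
  have hex : ∀ g, ∃ n : ℤ, ‖u * c g - n‖ < 1 := fun g =>
    hF _ (mul_mem (inv_mem (hcF g0)) (hcF g)) (hle g)
  choose N hN using hex
  have huniq : ∀ (g : G) (n : ℤ), ‖u * c g - n‖ < 1 → ((N g : ℤ) : ZMod 3) = n := by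
    intro g n hn
    have h1 : ‖((N g - n : ℤ) : Om)‖ < 1 := by
      have e : ((N g - n : ℤ) : Om) = (u * c g - n) - (u * c g - N g) := by
        push_cast
        ring
      rw [e]
      exact sub_lt hn (hN g)
    have h2 := int_small h1
    push_cast at h2
    exact sub_eq_zero.1 h2
  refine ⟨u, fun g => (N g : ZMod 3), hu0, hle, huniq, fun g => ⟨N g, hN g⟩, ?_, ?_, g0, ?_⟩
  · rw [IsLocallyConstant.iff_exists_open]
    intro g
    have hcont : Continuous fun h => ‖u * c h - u * c g‖ :=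
      ((continuous_const.mul hc.cont).sub continuous_const).norm
    refine ⟨{h | ‖u * c h - u * c g‖ < 1}, isOpen_lt hcont continuous_const, ?_, ?_⟩
    · show ‖u * c g - u * c g‖ < 1
      rw [sub_self, norm_zero]
      exact one_pos
    · intro h hh
      have hh' : ‖u * c h - u * c g‖ < 1 := hh
      apply huniq
      have e : u * c h - N g = (u * c h - u * c g) + (u * c g - N g) := by ring
      rw [e]
      exact add_lt hh' (hN g)
  · intro g h
    rw [← Int.cast_add]
    apply huniq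
    have e : u * c (g * h) - ((N g + N h : ℤ) : Om) =
        ((u * c g - N g) + (u * c h - N h)) + (u * c h) * (ρ g - 1) := by
      rw [hc.mul]
      push_cast
      ring
    rw [e]
    exact add_lt (add_lt (hN g) (hN h)) (mul_lt (hle h) (hρ1 g))
  · show ((N g0 : ℤ) : ZMod 3) ≠ 0
    have h1 : ((N g0 : ℤ) : ZMod 3) = (1 : ℤ) := by
      apply huniq
      rw [hu, inv_mul_cancel₀ h0, Int.cast_one, sub_self, norm_zero]
      exact one_pos
    rw [h1]
    decide

lemma Coc.one (hc : Coc ρ c) (hρ : ρ 1 = 1) : c 1 = 0 := by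
  have h := hc.mul 1 1
  rw [mul_one, hρ, one_mul] at h
  exact left_eq_add.1 h

/-- subtraction of a coboundary -/
lemma Coc.sub (hc : Coc ρ c) (hρm : ∀ g h, ρ (g * h) = ρ g * ρ h) (hρc : Continuous ρ) (z : Om) :
    Coc ρ (fun g => c g - (ρ g - 1) * z) := by
  refine ⟨hc.cont.sub ((hρc.sub continuous_const).mul continuous_const), fun g h => ?_⟩
  rw [hc.mul, hρm]
  ring

end

end Pool.Agent.N848.Sch
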