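import Mathlib
import Pool.Agent.N848.Sch.A

/-!
# Roots of unity of order a power of three, and the residue field of `ℚ_3(ζ)`
-/

set_option autoImplicit false
set_option linter.unusedSectionVars false

namespace Pool.Agent.N848.Sch

open Pool.Agent.Y715.T.Red Pool.Agent.Y715.T.Nr

lemma root_norm {ξ : Om} {m : ℕ} (h : ξ ^ 3 ^ m = 1) : ‖ξ‖ = 1 := by
  have h1 := congrArg norm h
  rw [norm_pow, norm_one] at h1
  exact (pow_eq_one_iff_of_nonneg (norm_nonneg _) (by positivity)).1 h1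

lemma root_lt {m : ℕ} : ∀ {ξ : Om}, ξ ^ 3 ^ m = 1 → ‖ξ - 1‖ < 1 := by
  induction m with
  | zero =>
    intro ξ h
    rw [pow_zero, pow_one] at h
    rw [h, sub_self, norm_zero]
    exact one_pos
  | succ m ih =>
    intro ξ h
    have hn := root_norm h
    have h1 : (ξ ^ 3) ^ 3 ^ m = 1 := by rw [← pow_mul, mul_comm 3, ← pow_succ, h]
    have h2 := ih h1
    apply lt_of_pow three_ne_zero
    have e : (ξ - 1) ^ 3 = (ξ ^ 3 - 1) - 3 * (ξ * (ξ - 1)) := by ring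
    rw [e]
    refine sub_lt h2 ?_
    rw [norm_mul, norm_three]
    have h3 : ‖ξ * (ξ - 1)‖ ≤ 1 := mul_le hn.le (sub_le hn.le (by rw [norm_one]))
    linarith

lemma cube_norm {ξ : Om} (h : ξ ^ 2 + ξ + 1 = 0) : ‖ξ - 1‖ ^ 2 = 1 / 3 := by
  have e : (ξ - 1) ^ 2 = -(3 * ξ) := by linear_combination h
  rw [← norm_pow, e, norm_neg, norm_mul, norm_I h, norm_three]
  norm_num

lemma root_ge {m : ℕ} : ∀ {ξ : Om}, ξ ^ 3 ^ m = 1 → ξ ≠ 1 → 1 / 3 ≤ ‖ξ - 1‖ ^ 2 := by
  induction m with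
  | zero =>
    intro ξ h hne
    rw [pow_zero, pow_one] at h
    exact absurd h hne
  | succ m ih =>
    intro ξ h hne
    have hn := root_norm h
    by_cases h1 : ξ ^ 3 = 1
    · have h2 : ξ ^ 2 + ξ + 1 = 0 := by
        have h3 : (ξ - 1) * (ξ ^ 2 + ξ + 1) = 0 := by linear_combination h1
        exact (mul_eq_zero.1 h3).resolve_left (sub_ne_zero.2 hne)
      exact (cube_norm h2).ge
    · have h2 : (ξ ^ 3) ^ 3 ^ m = 1 := by rw [← pow_mul, mul_comm 3, ← pow_succ, h]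
      have h3 := ih h2 h1
      have h4 : ‖ξ ^ 3 - 1‖ ≤ ‖ξ - 1‖ := by
        have e : ξ ^ 3 - 1 = (ξ - 1) * (ξ ^ 2 + ξ + 1) := by ring
        rw [e, norm_mul]
        have h5 : ‖ξ ^ 2 + ξ + 1‖ ≤ 1 := add_le (add_le (pow_le 2 hn.le) hn.le) (by rw [norm_one])
        nlinarith [norm_nonneg (ξ - 1)]
      exact h3.trans (pow_le_pow_left₀ (norm_nonneg _) h4 2)

lemma root_gt {m : ℕ} {ξ : Om} (h : ξ ^ 3 ^ m = 1) (hne : ξ ≠ 1) : 1 / 3 < ‖ξ - 1‖ := by
  have h1 := root_ge h hne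
  by_contra hcon
  push Not at hcon
  have h2 : ‖ξ - 1‖ ^ 2 ≤ (1 / 3) ^ 2 := pow_le_pow_left₀ (norm_nonneg _) hcon 2
  norm_num at h2
  linarith

lemma root_step {ξ : Om} (hn : ‖ξ‖ = 1) (h : 1 / 3 ≤ ‖ξ ^ 3 - 1‖ ^ 2) :
    ‖ξ - 1‖ ^ 3 = ‖ξ ^ 3 - 1‖ := by
  have e : ξ ^ 3 - 1 = (ξ - 1) * ((ξ - 1) ^ 2 + 3 * ξ) := by ring
  have h3 : ‖3 * ξ‖ = 1 / 3 := by rw [norm_mul, norm_three, hn]; norm_num
  by_cases h1 : ‖ξ - 1‖ ^ 2 ≤ 1 / 3
  · exfalso
    have h2 : ‖(ξ - 1) ^ 2 + 3 * ξ‖ ≤ 1 / 3 := by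
      refine add_le ?_ h3.le
      rw [norm_pow]
      exact h1
    rw [e, norm_mul, mul_pow] at h
    have h4 : ‖(ξ - 1) ^ 2 + 3 * ξ‖ ^ 2 ≤ (1 / 3) ^ 2 := pow_le_pow_left₀ (norm_nonneg _) h2 2
    have h5 : ‖ξ - 1‖ ^ 2 * ‖(ξ - 1) ^ 2 + 3 * ξ‖ ^ 2 ≤ (1 / 3) * (1 / 3) ^ 2 :=
      mul_le_mul h1 h4 (by positivity) (by norm_num)
    norm_num at h5
    linarith
  · push Not at h1
    have h2 : ‖(ξ - 1) ^ 2 + 3 * ξ‖ = ‖ξ - 1‖ ^ 2 := by
      rw [eq_of_lt, norm_pow]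
      rw [norm_pow, h3]
      exact h1
    rw [e, norm_mul, h2]
    ring

/-- the norm of `ζ - 1` for a primitive root of unity -/
lemma prim_norm {k : ℕ} : ∀ {ζ : Om}, IsPrimitiveRoot ζ (3 ^ (k + 1)) →
    ‖ζ - 1‖ ^ (2 * 3 ^ k) = 1 / 3 := by
  induction k with
  | zero =>
    intro ζ hζ
    have h1 : ζ ^ 3 = 1 := by simpa using hζ.pow_eq_one
    have hne : ζ ≠ 1 := hζ.ne_one (by norm_num)
    have h2 : ζ ^ 2 + ζ + 1 = 0 := by
      have h3 : (ζ - 1) * (ζ ^ 2 + ζ + 1) = 0 := by linear_combination h1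
      exact (mul_eq_zero.1 h3).resolve_left (sub_ne_zero.2 hne)
    simpa using cube_norm h2
  | succ k ih =>
    intro ζ hζ
    have h1 : IsPrimitiveRoot (ζ ^ 3) (3 ^ (k + 1)) :=
      hζ.pow (by positivity) (by rw [pow_succ, mul_comm])
    have h2 := ih h1
    have h3 : 1 / 3 ≤ ‖ζ ^ 3 - 1‖ ^ 2 :=
      root_ge h1.pow_eq_one (h1.ne_one (Nat.one_lt_pow (by omega) (by norm_num)))
    have h4 := root_step (root_norm hζ.pow_eq_one) h3
    rw [← h2, ← h4, ← pow_mul]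
    congr 1
    ring

/-- the polynomial of `ζ` -/
noncomputable def PhiX (k : ℕ) : Polynomial ℚ_[3] :=
  (Polynomial.X ^ 3 ^ k) ^ 2 + Polynomial.X ^ 3 ^ k + 1

lemma PhiX_monic (k : ℕ) : (PhiX k).Monic := by
  unfold PhiX
  have h : (Polynomial.X ^ 3 ^ k : Polynomial ℚ_[3]).natDegree = 3 ^ k :=
    Polynomial.natDegree_X_pow _
  have h0 : 0 < 3 ^ k := by positivity
  rw [add_assoc]
  apply Polynomial.Monic.add_of_left (Polynomial.Monic.pow (Polynomial.monic_X_pow _) 2)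
  apply Polynomial.degree_lt_degree
  have h1 : ((Polynomial.X ^ 3 ^ k : Polynomial ℚ_[3]) + 1).natDegree ≤ 3 ^ k := by
    refine (Polynomial.natDegree_add_le _ _).trans ?_
    rw [h, Polynomial.natDegree_one]
    omega
  have h2 : (((Polynomial.X ^ 3 ^ k : Polynomial ℚ_[3])) ^ 2).natDegree = 2 * 3 ^ k := by
    rw [← pow_mul, Polynomial.natDegree_X_pow]
    ring
  rw [h2]
  omega

lemma PhiX_deg (k : ℕ) : (PhiX k).natDegree = 2 * 3 ^ k := by
  unfold PhiX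
  have h : (Polynomial.X ^ 3 ^ k : Polynomial ℚ_[3]).natDegree = 3 ^ k :=
    Polynomial.natDegree_X_pow _
  have h0 : 0 < 3 ^ k := by positivity
  have h1 : ((Polynomial.X ^ 3 ^ k : Polynomial ℚ_[3]) + 1).natDegree ≤ 3 ^ k := by
    refine (Polynomial.natDegree_add_le _ _).trans ?_
    rw [h, Polynomial.natDegree_one]
    omega
  have h2 : (((Polynomial.X ^ 3 ^ k : Polynomial ℚ_[3])) ^ 2).natDegree = 2 * 3 ^ k := by
    rw [← pow_mul, Polynomial.natDegree_X_pow]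
    ring
  rw [add_assoc, Polynomial.natDegree_add_eq_left_of_natDegree_lt, h2]
  rw [h2]
  omega

lemma PhiX_root {k : ℕ} {ζ : Om} (hζ : IsPrimitiveRoot ζ (3 ^ (k + 1))) :
    Polynomial.aeval ζ (PhiX k) = 0 := by
  unfold PhiX
  rw [map_add, map_add, map_pow, map_pow, map_one, Polynomial.aeval_X]
  have h1 : (ζ ^ 3 ^ k) ^ 3 = 1 := by rw [← pow_mul, ← pow_succ, hζ.pow_eq_one]
  have hne : ζ ^ 3 ^ k ≠ 1 := by
    intro h
    have h2 := hζ.dvd_of_pow_eq_one _ h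
    have h3 := Nat.le_of_dvd (by positivity) h2
    exact absurd (Nat.pow_lt_pow_right (by norm_num : 1 < 3) (Nat.lt_succ_self k)) (not_lt.2 h3)
  have h3 : (ζ ^ 3 ^ k - 1) * ((ζ ^ 3 ^ k) ^ 2 + ζ ^ 3 ^ k + 1) = 0 := by linear_combination h1
  exact (mul_eq_zero.1 h3).resolve_left (sub_ne_zero.2 hne)

/-- the field `ℚ_3(ζ)` -/
noncomputable def Fz (ζ : Om) : Subfield Om := (IntermediateField.adjoin ℚ_[3] {ζ}).toSubfield

lemma mem_Fz (ζ : Om) : ζ ∈ Fz ζ := IntermediateField.mem_adjoin_simple_self ℚ_[3] ζ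

lemma coe_mem_Fz (ζ : Om) (x : ℚ_[3]) : (x : Om) ∈ Fz ζ :=
  (IntermediateField.adjoin ℚ_[3] {ζ}).algebraMap_mem x

lemma padic_norm_form {b : ℚ_[3]} (hb : b ≠ 0) : ∃ v : ℤ, ‖(b : Om)‖ = (3 : ℝ) ^ v := by
  obtain ⟨n, hn⟩ := Padic.padicNormE.image hb
  refine ⟨-n, ?_⟩
  rw [PadicAlgCl.norm_extends, hn]
  norm_num

theorem RF_Fz {k : ℕ} {ζ : Om} (hζ : IsPrimitiveRoot ζ (3 ^ (k + 1))) : RF (Fz ζ) := by
  classical
  intro x hx hx1
  set φ : ℕ := 2 * 3 ^ k with hφ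
  have hφ0 : 0 < φ := by positivity
  set π : Om := ζ - 1 with hπ
  have hπn : ‖π‖ ^ φ = 1 / 3 := prim_norm hζ
  have hπ0 : 0 < ‖π‖ := by
    rw [norm_pos_iff]
    intro h
    rw [h, norm_zero, zero_pow hφ0.ne'] at hπn
    norm_num at hπn
  -- a polynomial expression
  have hint : IsAlgebraic ℚ_[3] ζ := Algebra.IsAlgebraic.isAlgebraic ζ
  have h1 : x ∈ Algebra.adjoin ℚ_[3] {ζ} := by
    rw [← IntermediateField.adjoin_simple_toSubalgebra_of_isAlgebraic hint]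
    exact hx
  rw [Algebra.adjoin_singleton_eq_range_aeval] at h1
  obtain ⟨P, hP⟩ := h1
  have hP' : Polynomial.aeval ζ P = x := hP
  set Q : Polynomial ℚ_[3] := (PhiX k).comp (Polynomial.X + Polynomial.C 1) with hQ
  have hQm : Q.Monic := (PhiX_monic k).comp_X_add_C 1
  have hQd : Q.natDegree = φ := by
    rw [hQ, Polynomial.natDegree_comp, Polynomial.natDegree_X_add_C, mul_one, PhiX_deg]
  have hQr : Polynomial.aeval π Q = 0 := by
    rw [hQ, Polynomial.aeval_comp]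
    have : Polynomial.aeval π (Polynomial.X + Polynomial.C (1 : ℚ_[3])) = ζ := by
      rw [map_add, Polynomial.aeval_X, Polynomial.aeval_C, map_one, hπ]
      ring
    rw [this]
    exact PhiX_root hζ
  set R : Polynomial ℚ_[3] := (P.comp (Polynomial.X + Polynomial.C 1)) %ₘ Q with hR
  have hRx : Polynomial.aeval π R = x := by
    have h2 : Polynomial.aeval π (P.comp (Polynomial.X + Polynomial.C (1 : ℚ_[3]))) = x := by
      rw [Polynomial.aeval_comp]
      have : Polynomial.aeval π (Polynomial.X + Polynomial.C (1 : ℚ_[3])) = ζ := by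
        rw [map_add, Polynomial.aeval_X, Polynomial.aeval_C, map_one, hπ]
        ring
      rw [this, hP']
    have h3 := Polynomial.modByMonic_add_div (P.comp (Polynomial.X + Polynomial.C (1 : ℚ_[3]))) Q
    have h4 := congrArg (Polynomial.aeval π) h3
    rw [map_add, map_mul, hQr, zero_mul, add_zero, h2] at h4
    exact h4
  have hRd : R.natDegree < φ := by
    have h2 : Q ≠ 1 := by
      intro h
      rw [h, Polynomial.natDegree_one] at hQd
      omega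
    have := Polynomial.natDegree_modByMonic_lt (P.comp (Polynomial.X + Polynomial.C 1)) hQm h2
    rwa [hQd] at this
  have hsum : x = ∑ i ∈ Finset.range φ, ((R.coeff i : ℚ_[3]) : Om) * π ^ i := by
    rw [← hRx, Polynomial.aeval_eq_sum_range' hRd]
    refine Finset.sum_congr rfl fun i _ => ?_
    rw [Algebra.smul_def]
  -- the support
  set S : Finset ℕ := (Finset.range φ).filter fun i => R.coeff i ≠ 0 with hS
  have hsum' : x = ∑ i ∈ S, ((R.coeff i : ℚ_[3]) : Om) * π ^ i := by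
    rw [hsum, hS, Finset.sum_filter]
    refine Finset.sum_congr rfl fun i _ => ?_
    by_cases h : R.coeff i = 0
    · rw [h, if_neg (by simp)]
      have : ((0 : ℚ_[3]) : Om) = 0 := by
        show algebraMap ℚ_[3] (PadicAlgCl 3) 0 = 0
        rw [map_zero]
      rw [this, zero_mul]
    · rw [if_pos h]
  have hform : ∀ i ∈ S, ∃ v : ℤ, ‖((R.coeff i : ℚ_[3]) : Om) * π ^ i‖ ^ φ =
      (3 : ℝ) ^ (φ * v - i) := by
    intro i hi
    rw [hS, Finset.mem_filter] at hi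
    obtain ⟨v, hv⟩ := padic_norm_form hi.2
    refine ⟨v, ?_⟩
    have e1 : (‖π‖ ^ i) ^ φ = (3 : ℝ) ^ (-(i : ℤ)) := by
      rw [← pow_mul, mul_comm i φ, pow_mul, hπn, one_div, inv_pow, zpow_neg, zpow_natCast]
    have e2 : ((3 : ℝ) ^ v) ^ φ = (3 : ℝ) ^ (φ * v) := by
      rw [← zpow_natCast, ← zpow_mul, mul_comm]
    rw [norm_mul, norm_pow, mul_pow, hv, e1, e2, ← zpow_add₀ (by norm_num)]
    congr 1
  have hdist : ∀ i ∈ S, ∀ j ∈ S, i ≠ j → ‖((R.coeff i : ℚ_[3]) : Om) * π ^ i‖ ≠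
      ‖((R.coeff j : ℚ_[3]) : Om) * π ^ j‖ := by
    intro i hi j hj hij h
    obtain ⟨v, hv⟩ := hform i hi
    obtain ⟨v', hv'⟩ := hform j hj
    rw [h, hv'] at hv
    have h2 := zpow_right_injective₀ (a := (3 : ℝ)) (by norm_num) (by norm_num) hv
    rw [hS, Finset.mem_filter, Finset.mem_range] at hi hj
    have h3 : (φ : ℤ) * (v - v') = i - j := by linear_combination -h2
    have hφz : (0 : ℤ) < φ := by exact_mod_cast hφ0
    have hi' : (i : ℤ) < φ := by exact_mod_cast hi.1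
    have hj' : (j : ℤ) < φ := by exact_mod_cast hj.1
    have h4 : v - v' = 0 := by
      by_contra h5
      rcases lt_or_gt_of_ne h5 with h6 | h6
      · nlinarith
      · nlinarith
    rw [h4, mul_zero] at h3
    apply hij
    omega
  have hnn : ‖x‖₊ = S.sup (fun i => ‖((R.coeff i : ℚ_[3]) : Om) * π ^ i‖₊) := by
    conv_lhs => rw [hsum']
    apply IsUltrametricDist.nnnorm_sum_eq_sup_of_pairwise_ne
    intro i hi j hj hij h
    exact hdist i hi j hj hij (congrArg NNReal.toReal h)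
  have hle : ∀ i ∈ S, ‖((R.coeff i : ℚ_[3]) : Om) * π ^ i‖ ≤ 1 := by
    intro i hi
    have h2 : ‖((R.coeff i : ℚ_[3]) : Om) * π ^ i‖₊ ≤ ‖x‖₊ := by
      rw [hnn]
      exact Finset.le_sup (f := fun i => ‖((R.coeff i : ℚ_[3]) : Om) * π ^ i‖₊) hi
    exact (NNReal.coe_le_coe.2 h2).trans hx1
  have hlt : ∀ i ∈ S, i ≠ 0 → ‖((R.coeff i : ℚ_[3]) : Om) * π ^ i‖ < 1 := by
    intro i hi hi0
    refine lt_of_le_of_ne (hle i hi) fun h => ?_
    obtain ⟨v, hv⟩ := hform i hi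
    rw [h, one_pow] at hv
    have h2 : (3 : ℝ) ^ (0 : ℤ) = (3 : ℝ) ^ ((φ : ℤ) * v - i) := by rw [zpow_zero, hv]
    have h3 := zpow_right_injective₀ (a := (3 : ℝ)) (by norm_num) (by norm_num) h2
    rw [hS, Finset.mem_filter, Finset.mem_range] at hi
    have hφz : (0 : ℤ) < φ := by exact_mod_cast hφ0
    have hi' : (i : ℤ) < φ := by exact_mod_cast hi.1
    have hi'' : (0 : ℤ) < i := by omega
    have h4 : (φ : ℤ) * v = i := by linear_combination -h3
    have h5 : 0 < v := by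
      by_contra h6
      push Not at h6
      nlinarith
    nlinarith
  -- the constant term
  have hb0 : ∃ n : ℤ, ‖((R.coeff 0 : ℚ_[3]) : Om) - n‖ < 1 := by
    by_cases h0 : R.coeff 0 = 0
    · refine ⟨0, ?_⟩
      rw [h0]
      have : ((0 : ℚ_[3]) : Om) = 0 := by
        show algebraMap ℚ_[3] (PadicAlgCl 3) 0 = 0
        rw [map_zero]
      rw [this, Int.cast_zero, sub_zero, norm_zero]
      exact one_pos
    · have hmem : 0 ∈ S := by
        rw [hS, Finset.mem_filter, Finset.mem_range]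
        exact ⟨hφ0, h0⟩
      have h2 := hle 0 hmem
      rw [pow_zero, mul_one] at h2
      exact near h2 fun τ => τ.commutes (R.coeff 0)
  obtain ⟨n, hn⟩ := hb0
  refine ⟨n, ?_⟩
  have hrest : x - ((R.coeff 0 : ℚ_[3]) : Om) =
      ∑ i ∈ S.erase 0, ((R.coeff i : ℚ_[3]) : Om) * π ^ i := by
    by_cases hmem : 0 ∈ S
    · rw [hsum', ← Finset.add_sum_erase S _ hmem, pow_zero, mul_one]
      ring
    · have h0 : R.coeff 0 = 0 := by
        by_contra h
        apply hmem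
        rw [hS, Finset.mem_filter, Finset.mem_range]
        exact ⟨hφ0, h⟩
      have : ((0 : ℚ_[3]) : Om) = 0 := by
        show algebraMap ℚ_[3] (PadicAlgCl 3) 0 = 0
        rw [map_zero]
      rw [h0, this, sub_zero, Finset.erase_eq_of_notMem hmem]
      exact hsum'
  have hsmall : ‖∑ i ∈ S.erase 0, ((R.coeff i : ℚ_[3]) : Om) * π ^ i‖ < 1 := by
    have h2 : ∀ T : Finset ℕ, T ⊆ S.erase 0 →
        ‖∑ i ∈ T, ((R.coeff i : ℚ_[3]) : Om) * π ^ i‖ < 1 := by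
      intro T
      induction T using Finset.induction_on with
      | empty => intro _; rw [Finset.sum_empty, norm_zero]; exact one_pos
      | insert a T ha ih =>
        intro hT
        rw [Finset.sum_insert ha]
        have h3 := hT (Finset.mem_insert_self a T)
        rw [Finset.mem_erase] at h3
        exact add_lt (hlt a h3.2 h3.1) (ih fun y hy => hT (Finset.mem_insert_of_mem hy))
    exact h2 _ subset_rfl
  have e : x - n = (x - ((R.coeff 0 : ℚ_[3]) : Om)) + (((R.coeff 0 : ℚ_[3]) : Om) - n) := by ring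
  rw [e]
  refine add_lt ?_ hn
  rw [hrest]
  exact hsmall

end Pool.Agent.N848.Sch
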