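import Mathlib
import Pool.Agent.N848.Sch.B
import Pool.Agent.N848.Sch.C

/-!
# The cyclotomic character
-/

set_option autoImplicit false
set_option linter.unusedSectionVars false

namespace Pool.Agent.N848.Sch

open Pool.Agent.Y692.QS
open Pool.Agent.Y715.T.Gi Pool.Agent.Y715.T.Nr Pool.Agent.Y715.T.Red Pool.Agent.Y715.T.Df
open Pool.Agent.Y715.T.Sel

/-- the cyclotomic character -/
noncomputable def cyc (i₀ : QB) : GK i₀ →* ℤ_[3]ˣ :=
  (cyclotomicCharacter QB 3).comp (MulSemiringAction.toRingAut (GK i₀) QB)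

lemma cyc_cont (i₀ : QB) : Continuous (cyc i₀) := cyclotomicCharacter.continuous 3 (KK i₀) QB

instance enough (i : ℕ) : HasEnoughRootsOfUnity QB (3 ^ i) := by
  have : NeZero ((3 ^ i : ℕ) : QB) := ⟨by push_cast; exact pow_ne_zero _ three_ne_zero⟩
  infer_instance

variable {i₀ : QB}

lemma cyc_spec (σ : GK i₀) {n : ℕ} {t : QB} (ht : t ^ 3 ^ n = 1) :
    σ t = t ^ (((cyc i₀ σ : ℤ_[3]ˣ) : ℤ_[3]).toZModPow n).val :=
  cyclotomicCharacter.spec (L := QB) 3 (n := n) (MulSemiringAction.toRingAut (GK i₀) QB σ) t ht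

/-- the element of `ℚ̄_3` -/
noncomputable def om (x : ℤ_[3]) : Om := ((x : ℚ_[3]) : Om)

lemma om_mul (x y : ℤ_[3]) : om (x * y) = om x * om y := by
  unfold om
  rw [PadicInt.coe_mul]
  exact map_mul (algebraMap ℚ_[3] (PadicAlgCl 3)) _ _

lemma om_add (x y : ℤ_[3]) : om (x + y) = om x + om y := by
  unfold om
  rw [PadicInt.coe_add]
  exact map_add (algebraMap ℚ_[3] (PadicAlgCl 3)) _ _

lemma om_sub (x y : ℤ_[3]) : om (x - y) = om x - om y := by
  unfold om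
  rw [PadicInt.coe_sub]
  exact map_sub (algebraMap ℚ_[3] (PadicAlgCl 3)) _ _

lemma om_one : om 1 = 1 := by
  unfold om
  rw [PadicInt.coe_one]
  exact map_one (algebraMap ℚ_[3] (PadicAlgCl 3))

lemma om_zero : om 0 = 0 := by
  unfold om
  rw [PadicInt.coe_zero]
  exact map_zero (algebraMap ℚ_[3] (PadicAlgCl 3))

lemma om_norm (x : ℤ_[3]) : ‖om x‖ = ‖x‖ := by
  unfold om
  rw [PadicAlgCl.norm_extends, PadicInt.norm_def]

lemma om_inj {x y : ℤ_[3]} (h : om x = om y) : x = y := by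
  have h1 : ‖om (x - y)‖ = 0 := by rw [om_sub, h, sub_self, norm_zero]
  rw [om_norm, norm_eq_zero] at h1
  exact sub_eq_zero.1 h1

lemma om_cont : Continuous om := by
  have h : Isometry om := by
    apply Isometry.of_dist_eq
    intro x y
    rw [dist_eq_norm, dist_eq_norm, ← om_sub, om_norm]
  exact h.continuous

lemma om_mem (x : ℤ_[3]) (ζ : Om) : om x ∈ Fz ζ := coe_mem_Fz ζ _

/-- the power of the cyclotomic character -/
noncomputable def E (r : ℤ) (σ : GK i₀) : Om := om (((cyc i₀ σ) ^ r : ℤ_[3]ˣ) : ℤ_[3])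

lemma E_mul (r : ℤ) (σ τ : GK i₀) : E r (σ * τ) = E r σ * E r τ := by
  unfold E
  rw [map_mul, mul_zpow, Units.val_mul, om_mul]

lemma E_one (r : ℤ) : E r (1 : GK i₀) = 1 := by
  unfold E
  rw [map_one, one_zpow, Units.val_one, om_one]

lemma E_ne (r : ℤ) (σ : GK i₀) : E r σ ≠ 0 := by
  intro h
  have h1 := E_mul r σ σ⁻¹
  rw [mul_inv_cancel, E_one, h, zero_mul] at h1
  exact one_ne_zero h1

lemma E_cont (r : ℤ) : Continuous (E r : GK i₀ → Om) := by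
  have h1 : Continuous fun σ : GK i₀ => (cyc i₀ σ) ^ r := (cyc_cont i₀).zpow r
  exact om_cont.comp (Units.continuous_val.comp h1)

lemma E_mem (r : ℤ) (σ : GK i₀) (ζ : Om) : E r σ ∈ Fz ζ := om_mem _ _

/-- the values of the cyclotomic character are congruent to one modulo three -/
lemma cyc_three (hi : i₀ ^ 2 + i₀ + 1 = 0) (σ : GK i₀) : ‖((cyc i₀ σ : ℤ_[3]ˣ) : ℤ_[3]) - 1‖ ≤ 1 / 3 := by
  have h1 : i₀ ^ 3 ^ 1 = 1 := by rw [pow_one]; exact i₀_cube hi
  have h2 := cyc_spec σ h1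
  rw [gk_fix] at h2
  have hp := i₀_prim (hi := hi)
  set a := (((cyc i₀ σ : ℤ_[3]ˣ) : ℤ_[3]).toZModPow 1) with ha
  have h3 : a = 1 := by
    have h4 : a.val < 3 := by
      have := ZMod.val_lt a
      simpa using this
    have h5 : (1 : ℕ) = a.val := hp.pow_inj (by norm_num) h4 (by rw [pow_one]; exact h2)
    apply ZMod.val_injective (3 ^ 1)
    rw [← h5]
    rfl
  have h6 : ((cyc i₀ σ : ℤ_[3]ˣ) : ℤ_[3]) - 1 ∈ RingHom.ker (PadicInt.toZModPow (p := 3) 1) := by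
    rw [RingHom.mem_ker, map_sub, map_one, ← ha, h3, sub_self]
  rw [PadicInt.ker_toZModPow] at h6
  have h7 := (PadicInt.norm_le_pow_iff_mem_span_pow _ 1).2 h6
  simpa using h7

lemma unit_sub_le {u : ℤ_[3]ˣ} (hu : ‖(u : ℤ_[3]) - 1‖ ≤ 1 / 3) (n : ℕ) :
    ‖((u ^ n : ℤ_[3]ˣ) : ℤ_[3]) - 1‖ ≤ 1 / 3 := by
  have h : ((u ^ n : ℤ_[3]ˣ) : ℤ_[3]) - 1 = ((u : ℤ_[3]) - 1) * ∑ i ∈ Finset.range n, (u : ℤ_[3]) ^ i := by
    rw [Units.val_pow_eq_pow_val, mul_comm, geom_sum_mul]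
  rw [h, norm_mul]
  have h1 := PadicInt.norm_le_one (∑ i ∈ Finset.range n, (u : ℤ_[3]) ^ i)
  nlinarith [norm_nonneg ((u : ℤ_[3]) - 1)]

lemma unit_zpow_le {u : ℤ_[3]ˣ} (hu : ‖(u : ℤ_[3]) - 1‖ ≤ 1 / 3) (r : ℤ) :
    ‖((u ^ r : ℤ_[3]ˣ) : ℤ_[3]) - 1‖ ≤ 1 / 3 := by
  rcases Int.eq_nat_or_neg r with ⟨n, rfl | rfl⟩
  · rw [zpow_natCast]
    exact unit_sub_le hu n
  · have h1 := unit_sub_le hu n
    rw [zpow_neg, zpow_natCast]
    have e : (((u ^ n)⁻¹ : ℤ_[3]ˣ) : ℤ_[3]) - 1 =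
        -((((u ^ n)⁻¹ : ℤ_[3]ˣ) : ℤ_[3]) * (((u ^ n : ℤ_[3]ˣ) : ℤ_[3]) - 1)) := by
      have h2 : (((u ^ n)⁻¹ : ℤ_[3]ˣ) : ℤ_[3]) * ((u ^ n : ℤ_[3]ˣ) : ℤ_[3]) = 1 := Units.inv_mul _
      linear_combination h2
    rw [e, norm_neg, norm_mul, PadicInt.norm_units, one_mul]
    exact h1

lemma E_sub (hi : i₀ ^ 2 + i₀ + 1 = 0) (r : ℤ) (σ : GK i₀) : ‖E r σ - 1‖ ≤ 1 / 3 := by
  unfold E
  rw [← om_one, ← om_sub, om_norm]
  exact unit_zpow_le (cyc_three hi σ) r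

lemma E_sub_lt (hi : i₀ ^ 2 + i₀ + 1 = 0) (r : ℤ) (σ : GK i₀) : ‖E r σ - 1‖ < 1 :=
  (E_sub hi r σ).trans_lt (by norm_num)

/-! ### No torsion -/

lemma tf {n : ℕ} : ∀ {x : Om}, ‖x - 1‖ ≤ 1 / 3 → n ≠ 0 → x ^ n = 1 → x = 1 := by
  induction n using Nat.strong_induction_on with
  | _ n ih =>
  intro x hx hn hxn
  have hx1 : ‖x‖ = 1 := by
    have h1 := congrArg norm hxn
    rw [norm_pow, norm_one] at h1
    exact (pow_eq_one_iff_of_nonneg (norm_nonneg _) hn).1 h1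
  have hpow : ∀ m : ℕ, ‖x ^ m - 1‖ ≤ 1 / 3 := by
    intro m
    have h : x ^ m - 1 = (x - 1) * ∑ i ∈ Finset.range m, x ^ i := by rw [mul_comm, geom_sum_mul]
    rw [h, norm_mul]
    have h1 : ‖∑ i ∈ Finset.range m, x ^ i‖ ≤ 1 := by
      apply IsUltrametricDist.norm_sum_le_of_forall_le_of_nonneg (by norm_num)
      intro i _
      rw [norm_pow, hx1, one_pow]
    nlinarith [norm_nonneg (x - 1)]
  by_cases h3 : 3 ∣ n
  · obtain ⟨m, rfl⟩ := h3
    have hm : m ≠ 0 := by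
      rintro rfl
      exact hn rfl
    by_cases h4 : x ^ m = 1
    · exact ih m (by omega) hx hm h4
    · exfalso
      have h5 : (x ^ m) ^ 3 ^ 1 = 1 := by rw [← pow_mul, pow_one, mul_comm, hxn]
      have h6 := root_gt h5 h4
      have h7 := hpow m
      linarith
  · have h4 : (x - 1) * ∑ i ∈ Finset.range n, x ^ i = 0 := by
      rw [mul_comm, geom_sum_mul, hxn, sub_self]
    rcases mul_eq_zero.1 h4 with h5 | h5
    · exact sub_eq_zero.1 h5
    · exfalso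
      have h6 : ‖∑ i ∈ Finset.range n, (x ^ i - 1)‖ ≤ 1 / 3 := by
        apply IsUltrametricDist.norm_sum_le_of_forall_le_of_nonneg (by norm_num)
        intro i _
        exact hpow i
      have h7 : ∑ i ∈ Finset.range n, (x ^ i - 1) = -(n : Om) := by
        rw [Finset.sum_sub_distrib, h5]
        simp
      rw [h7, norm_neg] at h6
      have h8 : ‖((n : ℕ) : PadicAlgCl 3)‖ = 1 := Pool.Agent.W327.RK.norm_nat h3
      rw [h8] at h6
      norm_num at h6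

lemma tfz {x : ℤ_[3]ˣ} (hx : ‖(x : ℤ_[3]) - 1‖ ≤ 1 / 3) {m : ℤ} (hm : m ≠ 0) (h : x ^ m = 1) :
    x = 1 := by
  have h1 : x ^ m.natAbs = 1 := by
    rcases Int.natAbs_eq m with h5 | h5
    · rw [← zpow_natCast, ← h5, h]
    · rw [← zpow_natCast, show ((m.natAbs : ℕ) : ℤ) = -m by omega, zpow_neg, h, inv_one]
  have h2 : om (x : ℤ_[3]) ^ m.natAbs = 1 := by
    have h3 : ∀ n : ℕ, om ((x ^ n : ℤ_[3]ˣ) : ℤ_[3]) = om (x : ℤ_[3]) ^ n := by
      intro n
      induction n with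
      | zero => rw [pow_zero, pow_zero, Units.val_one, om_one]
      | succ n ih => rw [pow_succ, pow_succ, Units.val_mul, om_mul, ih]
    rw [← h3, h1, Units.val_one, om_one]
  have h3 : om (x : ℤ_[3]) = 1 := by
    refine tf ?_ (Int.natAbs_ne_zero.2 hm) h2
    rw [← om_one, ← om_sub, om_norm]
    exact hx
  rw [← om_one] at h3
  exact Units.ext (om_inj h3)

/-! ### Inertia groups and the place above three -/

/-- the roots of unity are fixed by the inertia groups -/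
lemma root_fix {p : ℕ} [Fact p.Prime] (hp : p ≠ 3) {τ : Au p} (hin : Inert τ) (n : ℕ) :
    ∀ z : PadicAlgCl p, z ^ 3 ^ n = 1 → τ z = z := by
  intro z hz
  have hz0 : z ≠ 0 := by
    rintro rfl
    rw [zero_pow (by positivity)] at hz
    exact zero_ne_one hz
  have hz1 : ‖z‖ = 1 := by
    have h1 := congrArg norm hz
    rw [norm_pow, norm_one] at h1
    exact (pow_eq_one_iff_of_nonneg (norm_nonneg _) (by positivity)).1 h1
  set u := τ z / z with hu
  have hu1 : u ^ 3 ^ n = 1 := by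
    rw [hu, div_pow, ← map_pow, hz, map_one, div_one]
  have hu2 : ‖u - 1‖ < 1 := by
    have h1 := hin z hz1.le
    have e : u - 1 = (τ z - z) / z := by rw [hu]; field_simp
    rw [e, norm_div, hz1, div_one]
    exact h1
  have hun : ‖u‖ = 1 := by rw [hu, norm_div, nrm, hz1, div_one]
  have key : ∀ m : ℕ, u ^ 3 ^ m = 1 → u = 1 := by
    intro m
    induction m with
    | zero =>
      intro h
      simpa using h
    | succ m ih =>
      intro h
      apply ih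
      set v := u ^ 3 ^ m with hv
      have h1 : v ^ 3 = 1 := by rw [hv, ← pow_mul, ← pow_succ, h]
      have h3 : ‖v - 1‖ < 1 := by
        have h4 : v - 1 = (u - 1) * ∑ i ∈ Finset.range (3 ^ m), u ^ i := by
          rw [mul_comm, geom_sum_mul]
        rw [h4, norm_mul]
        have h5 : ‖∑ i ∈ Finset.range (3 ^ m), u ^ i‖ ≤ 1 := by
          apply IsUltrametricDist.norm_sum_le_of_forall_le_of_nonneg (by norm_num)
          intro i _
          rw [norm_pow, hun, one_pow]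
        calc ‖u - 1‖ * _ ≤ ‖u - 1‖ * 1 := mul_le_mul_of_nonneg_left h5 (norm_nonneg _)
          _ < 1 := by rwa [mul_one]
      by_contra hne
      have h2 : v ^ 2 + v + 1 = 0 := by
        have h3 : (v - 1) * (v ^ 2 + v + 1) = 0 := by linear_combination h1
        exact (mul_eq_zero.1 h3).resolve_left (sub_ne_zero.2 hne)
      have e : (3 : PadicAlgCl p) = -((v - 1) * (v + 2)) := by linear_combination h2
      have hvn : ‖v‖ = 1 := by rw [hv, norm_pow, hun, one_pow]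
      have h6 : ‖(3 : PadicAlgCl p)‖ < 1 := by
        rw [e, norm_neg, mul_comm]
        exact mul_lt (add_le hvn.le two_le) h3
      rw [norm_three_one hp] at h6
      exact lt_irrefl _ h6
  have h1 := key n hu1
  rw [hu, div_eq_one_iff_eq hz0] at h1
  exact h1

lemma cyc_inert {p : ℕ} [Fact p.Prime] (hp : p ≠ 3) {ι : QB →ₐ[ℚ] PadicAlgCl p} {σ : GK i₀}
    {τ : Au p} (hτ : Cmp ι τ σ) (hin : Inert τ) : cyc i₀ σ = 1 := by
  apply Units.ext
  apply PadicInt.ext_of_toZModPow.mp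
  intro n
  obtain ⟨ζ, hζ⟩ := HasEnoughRootsOfUnity.exists_primitiveRoot QB (3 ^ n)
  have h1 : σ ζ = ζ := by
    apply ι.injective
    show ι (σ ζ) = ι ζ
    rw [← hτ]
    exact root_fix hp hin n (ι ζ) (by rw [← map_pow, hζ.pow_eq_one, map_one])
  have h2 := cyc_spec σ hζ.pow_eq_one
  rw [h1] at h2
  rw [Units.val_one, map_one]
  rcases Nat.eq_zero_or_pos n with rfl | hn
  · have : Subsingleton (ZMod (3 ^ 0)) := by rw [pow_zero]; infer_instance
    exact Subsingleton.elim _ _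
  have h3 : (1 : ℕ) < 3 ^ n := Nat.one_lt_pow (by omega) (by norm_num)
  have h4 : (((cyc i₀ σ : ℤ_[3]ˣ) : ℤ_[3]).toZModPow n).val = 1 := by
    apply hζ.pow_inj (ZMod.val_lt _) h3
    rw [← h2, pow_one]
  have : Fact (1 < 3 ^ n) := ⟨h3⟩
  apply ZMod.val_injective
  rw [h4, ZMod.val_one]

lemma E_inert {p : ℕ} [Fact p.Prime] (hp : p ≠ 3) {ι : QB →ₐ[ℚ] PadicAlgCl p} {σ : GK i₀}
    {τ : Au p} (hτ : Cmp ι τ σ) (hin : Inert τ) (r : ℤ) : E r σ = 1 := by
  unfold E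
  rw [cyc_inert hp hτ hin, one_zpow, Units.val_one, om_one]

/-- the cyclotomic character is not trivial on the decomposition groups above three -/
theorem exists_cyc_ne (hi : i₀ ^ 2 + i₀ + 1 = 0) (ι : QB →ₐ[ℚ] PadicAlgCl 3) :
    ∃ (τ : Au 3) (σ : GK i₀), Cmp ι τ σ ∧ cyc i₀ σ ≠ 1 := by
  by_contra hcon
  push Not at hcon
  obtain ⟨ζ, hζ⟩ := HasEnoughRootsOfUnity.exists_primitiveRoot QB (3 ^ 2)
  have hζ' : IsPrimitiveRoot (ι ζ) (3 ^ (1 + 1)) := hζ.map_of_injective ι.injective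
  have h1 := prim_norm hζ'
  have hfix : ∀ τ : Au 3, Inert τ → τ (ι i₀) = ι i₀ → τ (ι ζ - 1) = ι ζ - 1 := by
    intro τ _ hτ
    obtain ⟨σ, hc⟩ := exists_cmp ι τ hτ
    have h2 := hcon τ σ hc
    have h3 := cyc_spec σ hζ.pow_eq_one
    rw [h2, Units.val_one, map_one] at h3
    have h4 : ((1 : ZMod (3 ^ 2))).val = 1 := by decide
    rw [h4, pow_one] at h3
    rw [map_sub, map_one, hc, h3]
  have h0 : ι ζ - 1 ≠ 0 := by
    intro h
    rw [h, norm_zero] at h1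
    norm_num at h1
  obtain ⟨m, hm⟩ := norm_two (iota_sq hi ι) h0 hfix
  have h2 : ‖ι ζ - 1‖ ^ (2 * 3 ^ 1) = ((3 : ℝ) ^ m) ^ 3 := by
    rw [← hm, ← pow_mul]
    norm_num
  rw [h1] at h2
  have h3 : (3 : ℝ) ^ (-1 : ℤ) = (3 : ℝ) ^ (m * 3) := by
    rw [zpow_mul, zpow_neg_one]
    norm_num at h2 ⊢
    exact_mod_cast h2
  have h4 := zpow_right_injective₀ (a := (3 : ℝ)) (by norm_num) (by norm_num) h3
  omega

/-- no power of the cyclotomic character is trivial on the decomposition groups above three -/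
theorem exists_E_ne (hi : i₀ ^ 2 + i₀ + 1 = 0) (ι : QB →ₐ[ℚ] PadicAlgCl 3) {r : ℤ} (hr : r ≠ 0)
    {n : ℕ} (hn : n ≠ 0) : ∃ (τ : Au 3) (σ : GK i₀), Cmp ι τ σ ∧ E r (σ ^ n) ≠ 1 := by
  obtain ⟨τ, σ, hc, hne⟩ := exists_cyc_ne hi ι
  refine ⟨τ, σ, hc, fun h => hne ?_⟩
  unfold E at h
  rw [← om_one] at h
  have h1 : (cyc i₀ (σ ^ n)) ^ r = 1 := Units.ext (om_inj h)
  rw [map_pow, ← zpow_natCast, ← zpow_mul] at h1
  exact tfz (cyc_three hi σ) (mul_ne_zero (by exact_mod_cast hn) hr) h1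

end Pool.Agent.N848.Sch
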