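import Mathlib
import Pool.Agent.N848.Sch.D

/-!
# Cocycles on the absolute Galois group of a cyclic extension of degree a power of three
-/

set_option autoImplicit false
set_option linter.unusedSectionVars false

namespace Pool.Agent.N848.Sch

open Pool.Agent.Y692.QS
open Pool.Agent.Y715.T.Gi Pool.Agent.Y715.T.Nr Pool.Agent.Y715.T.Red Pool.Agent.Y715.T.Df
open Pool.Agent.Y715.T.Sel
open Pool.Agent.Y715.T.Rec (cs)
open Pool.Agent.Y715.T.RecG (Pq)

variable {i₀ : QB}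

/-! ### The transform -/

section transform

variable {n : ℕ} [NeZero n]

/-- the powers of `ζ` -/
noncomputable def zt (ζ : Om) (x : ZMod n) : Om := ζ ^ x.val

lemma zt_add {ζ : Om} (hζ : ζ ^ n = 1) (x y : ZMod n) : zt ζ (x + y) = zt ζ x * zt ζ y := by
  unfold zt
  rw [← pow_add, ZMod.val_add]
  conv_rhs => rw [← Nat.div_add_mod (x.val + y.val) n]
  rw [pow_add, pow_mul, hζ, one_pow, one_mul]

lemma zt_zero (ζ : Om) : zt ζ (0 : ZMod n) = 1 := by
  unfold zt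
  rw [ZMod.val_zero, pow_zero]

lemma zt_ne_one {ζ : Om} (hζ : IsPrimitiveRoot ζ n) {x : ZMod n} (hx : x ≠ 0) : zt ζ x ≠ 1 := by
  intro h
  have h1 := hζ.pow_inj (ZMod.val_lt x) (NeZero.pos n) (by rw [pow_zero]; exact h)
  exact hx ((ZMod.val_eq_zero x).1 h1)

lemma zt_sum {ζ : Om} (hζ : IsPrimitiveRoot ζ n) {x : ZMod n} (hx : x ≠ 0) :
    ∑ j : ZMod n, zt ζ (-(x * j)) = 0 := by
  have h1 : zt ζ (-x) * ∑ j : ZMod n, zt ζ (-(x * j)) = ∑ j : ZMod n, zt ζ (-(x * j)) := by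
    rw [Finset.mul_sum, ← Equiv.sum_comp (Equiv.addRight (1 : ZMod n)) fun j => zt ζ (-(x * j))]
    refine Finset.sum_congr rfl fun j _ => ?_
    rw [← zt_add hζ.pow_eq_one]
    congr 1
    rw [Equiv.coe_addRight]
    ring
  have h2 : (zt ζ (-x) - 1) * ∑ j : ZMod n, zt ζ (-(x * j)) = 0 := by
    rw [sub_mul, h1, one_mul, sub_self]
  exact (mul_eq_zero.1 h2).resolve_left (sub_ne_zero.2 (zt_ne_one hζ (neg_ne_zero.2 hx)))

/-- the representatives -/
noncomputable def T (t : GK i₀) (i : ZMod n) : GK i₀ := t ^ i.val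

variable {a : GK i₀ → ZMod n} {t : GK i₀} {r : ℤ} {ct : GK i₀ → Om} {ζ : Om}

lemma a_one (ha : ∀ σ τ, a (σ * τ) = a σ + a τ) : a 1 = 0 := by
  have h := ha 1 1
  rw [mul_one] at h
  exact left_eq_add.1 h

lemma a_inv (ha : ∀ σ τ, a (σ * τ) = a σ + a τ) (σ : GK i₀) : a σ⁻¹ = -a σ := by
  have h := ha σ σ⁻¹
  rw [mul_inv_cancel, a_one ha] at h
  exact (neg_eq_of_add_eq_zero_right h.symm).symm

lemma a_pow (ha : ∀ σ τ, a (σ * τ) = a σ + a τ) (σ : GK i₀) (m : ℕ) : a (σ ^ m) = m * a σ := by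
  induction m with
  | zero => rw [pow_zero, a_one ha, Nat.cast_zero, zero_mul]
  | succ m ih => rw [pow_succ, ha, ih]; push_cast; ring

lemma a_T (ha : ∀ σ τ, a (σ * τ) = a σ + a τ) (ht : a t = 1) (i : ZMod n) : a (T t i) = i := by
  unfold T
  rw [a_pow ha, ht, mul_one, ZMod.natCast_zmod_val]

/-- the character `ε ^ r ζ ^ (- j a)` -/
noncomputable def rho (ζ : Om) (a : GK i₀ → ZMod n) (r : ℤ) (j : ZMod n) (g : GK i₀) : Om :=
  zt ζ (-(j * a g)) * E r g

lemma rho_mul (hζ : ζ ^ n = 1) (ha : ∀ σ τ, a (σ * τ) = a σ + a τ) (j : ZMod n) (g h : GK i₀) :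
    rho ζ a r j (g * h) = rho ζ a r j g * rho ζ a r j h := by
  unfold rho
  rw [ha, E_mul, mul_add, neg_add, zt_add hζ]
  ring

lemma rho_one (ha : ∀ σ τ, a (σ * τ) = a σ + a τ) (j : ZMod n) :
    rho ζ a r j (1 : GK i₀) = 1 := by
  unfold rho
  rw [a_one ha, mul_zero, neg_zero, zt_zero, E_one, one_mul]

/-- the component of the induced cocycle -/
noncomputable def cj (ζ : Om) (a : GK i₀ → ZMod n) (t : GK i₀) (r : ℤ) (ct : GK i₀ → Om)
    (j : ZMod n) (g : GK i₀) : Om :=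
  ∑ i : ZMod n, zt ζ (-(i * j)) * E r (T t i) * ct ((T t i)⁻¹ * g * T t (i - a g))

theorem cj_mul (hζ : ζ ^ n = 1) (ha : ∀ σ τ, a (σ * τ) = a σ + a τ) (ht : a t = 1)
    (hct : ∀ σ τ, a σ = 0 → a τ = 0 → ct (σ * τ) = ct σ + E r σ * ct τ) (j : ZMod n)
    (g h : GK i₀) :
    cj ζ a t r ct j (g * h) = cj ζ a t r ct j g + rho ζ a r j g * cj ζ a t r ct j h := by
  have e1 : ∀ i : ZMod n, ct ((T t i)⁻¹ * (g * h) * T t (i - a (g * h))) =
      ct ((T t i)⁻¹ * g * T t (i - a g)) + E r ((T t i)⁻¹ * g * T t (i - a g)) *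
        ct ((T t (i - a g))⁻¹ * h * T t (i - a g - a h)) := by
    intro i
    rw [← hct]
    · congr 1
      rw [ha, ← sub_sub]
      group
    · rw [ha, ha, a_inv ha, a_T ha ht, a_T ha ht]
      ring
    · rw [ha, ha, a_inv ha, a_T ha ht, a_T ha ht]
      ring
  have e2 : ∀ i : ZMod n, zt ζ (-(i * j)) * E r (T t i) *
      ct ((T t i)⁻¹ * (g * h) * T t (i - a (g * h))) =
      zt ζ (-(i * j)) * E r (T t i) * ct ((T t i)⁻¹ * g * T t (i - a g)) +
      E r g * (zt ζ (-(i * j)) * E r (T t (i - a g)) *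
        ct ((T t (i - a g))⁻¹ * h * T t (i - a g - a h))) := by
    intro i
    rw [e1, E_mul, E_mul]
    have h1 : E r (T t i) * E r (T t i)⁻¹ = 1 := by rw [← E_mul, mul_inv_cancel, E_one]
    linear_combination (zt ζ (-(i * j)) * E r g * E r (T t (i - a g)) *
      ct ((T t (i - a g))⁻¹ * h * T t (i - a g - a h))) * h1
  unfold cj
  rw [Finset.sum_congr rfl fun i _ => e2 i, Finset.sum_add_distrib]
  congr 1
  rw [← Finset.mul_sum, ← Equiv.sum_comp (Equiv.addRight (a g)) fun i => zt ζ (-(i * j)) *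
    E r (T t (i - a g)) * ct ((T t (i - a g))⁻¹ * h * T t (i - a g - a h))]
  rw [Finset.mul_sum, Finset.mul_sum]
  refine Finset.sum_congr rfl fun i _ => ?_
  rw [Equiv.coe_addRight, add_sub_cancel_right]
  have h2 : zt ζ (-((i + a g) * j)) = zt ζ (-(i * j)) * zt ζ (-(j * a g)) := by
    rw [← zt_add hζ]
    congr 1
    ring
  rw [h2]
  unfold rho
  ring

/-- the component at the elements of the kernel -/
lemma cj_ker {j : ZMod n} {g : GK i₀} (hg : a g = 0) : cj ζ a t r ct j g =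
    ∑ i : ZMod n, zt ζ (-(i * j)) * E r (T t i) * ct ((T t i)⁻¹ * g * T t i) := by
  unfold cj
  rw [hg]
  simp only [sub_zero]

/-- inversion -/
theorem cj_sum (hζ : IsPrimitiveRoot ζ n) {g : GK i₀} (hg : a g = 0) :
    ∑ j : ZMod n, cj ζ a t r ct j g = n * ct g := by
  have h1 : ∑ j : ZMod n, cj ζ a t r ct j g =
      ∑ i : ZMod n, (∑ j : ZMod n, zt ζ (-(i * j))) * (E r (T t i) * ct ((T t i)⁻¹ * g * T t i)) := by
    simp only [cj_ker hg]
    rw [Finset.sum_comm]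
    refine Finset.sum_congr rfl fun i _ => ?_
    rw [Finset.sum_mul]
    refine Finset.sum_congr rfl fun j _ => ?_
    ring
  rw [h1, Finset.sum_eq_single 0]
  · have h2 : ∑ j : ZMod n, zt ζ (-((0 : ZMod n) * j)) = n := by
      simp only [zero_mul, neg_zero, zt_zero]
      simp
    have h3 : T t (0 : ZMod n) = 1 := by
      unfold T
      rw [ZMod.val_zero, pow_zero]
    rw [h2, h3, E_one, inv_one, one_mul, one_mul, mul_one]
  · intro i _ hi
    rw [zt_sum hζ hi, zero_mul]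
  · intro h
    exact absurd (Finset.mem_univ _) h

lemma cj_cont (hlc : IsLocallyConstant a) (hct : Continuous ct) (j : ZMod n) :
    Continuous (cj ζ a t r ct j) := by
  unfold cj
  refine continuous_finsetSum _ fun i _ => ?_
  refine continuous_const.mul (hct.comp ?_)
  refine (continuous_const.mul continuous_id).mul ?_
  exact (hlc.comp fun x => T t (i - x)).continuous

lemma zt_mem (x : ZMod n) : zt ζ x ∈ Fz ζ := pow_mem (mem_Fz ζ) _

lemma cj_mem (hct : ∀ g, ct g ∈ Fz ζ) (j : ZMod n) (g : GK i₀) : cj ζ a t r ct j g ∈ Fz ζ := by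
  unfold cj
  exact sum_mem fun i _ => mul_mem (mul_mem (zt_mem _) (E_mem _ _ _)) (hct _)

lemma rho_mem (j : ZMod n) (g : GK i₀) : rho ζ a r j g ∈ Fz ζ :=
  mul_mem (zt_mem _) (E_mem _ _ _)

lemma rho_cont (hlc : IsLocallyConstant a) (j : ZMod n) :
    Continuous (rho ζ a r j : GK i₀ → Om) := by
  unfold rho
  refine Continuous.mul ?_ (E_cont r)
  exact (hlc.comp fun x => zt ζ (-(j * x))).continuous

end transform

/-! ### Conjugation of embeddings -/

lemma cmp_conj {p : ℕ} [Fact p.Prime] {ι : QB →ₐ[ℚ] PadicAlgCl p} {τ : Au p} {g : GK i₀}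
    (h : Cmp ι τ g) (s : GK i₀) : Cmp (ι.comp (gh s)) τ (s⁻¹ * g * s) := by
  intro x
  show τ (ι (s x)) = ι (s ((s⁻¹ * g * s) x))
  rw [h]
  congr 1
  rw [← AlgEquiv.mul_apply, ← AlgEquiv.mul_apply]
  congr 1
  group

lemma cmp_inv {p : ℕ} [Fact p.Prime] {ι : QB →ₐ[ℚ] PadicAlgCl p} {τ : Au p} {g : GK i₀}
    (h : Cmp ι τ g) : Cmp ι τ⁻¹ g⁻¹ := by
  intro x
  have h1 := h (g⁻¹ x)
  rw [← AlgEquiv.mul_apply g, mul_inv_cancel, AlgEquiv.one_apply] at h1
  rw [← h1, ← AlgEquiv.mul_apply, inv_mul_cancel, AlgEquiv.one_apply]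

lemma cmp_pow {p : ℕ} [Fact p.Prime] {ι : QB →ₐ[ℚ] PadicAlgCl p} {τ : Au p} {g : GK i₀}
    (h : Cmp ι τ g) (m : ℕ) : Cmp ι (τ ^ m) (g ^ m) := by
  induction m with
  | zero => intro x; rw [pow_zero, pow_zero, AlgEquiv.one_apply, AlgEquiv.one_apply]
  | succ m ih => rw [pow_succ, pow_succ]; exact ih.mul h

lemma inert_mul {p : ℕ} [Fact p.Prime] {τ τ' : Au p} (h : Inert τ) (h' : Inert τ') :
    Inert (τ * τ') := by
  intro z hz
  have e : (τ * τ') z - z = (τ (τ' z) - τ' z) + (τ' z - z) := by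
    rw [AlgEquiv.mul_apply]
    ring
  rw [e]
  exact add_lt (h _ (by rwa [nrm])) (h' z hz)

lemma inert_one {p : ℕ} [Fact p.Prime] : Inert (1 : Au p) := by
  intro z _
  rw [AlgEquiv.one_apply, sub_self, norm_zero]
  exact one_pos

lemma inert_pow {p : ℕ} [Fact p.Prime] {τ : Au p} (h : Inert τ) (m : ℕ) : Inert (τ ^ m) := by
  induction m with
  | zero => rw [pow_zero]; exact inert_one
  | succ m ih => rw [pow_succ]; exact inert_mul ih h

lemma inert_inv {p : ℕ} [Fact p.Prime] {τ : Au p} (h : Inert τ) : Inert τ⁻¹ := by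
  intro z hz
  have h1 := h (τ⁻¹ z) (by rwa [nrm])
  rw [← AlgEquiv.mul_apply, mul_inv_cancel, AlgEquiv.one_apply, norm_sub_rev] at h1
  exact h1

lemma inert_conj {p : ℕ} [Fact p.Prime] {τ : Au p} (h : Inert τ) (s : Au p) :
    Inert (s * τ * s⁻¹) := by
  intro z hz
  have h1 := h (s⁻¹ z) (by rwa [nrm])
  have e : (s * τ * s⁻¹) z - z = s (τ (s⁻¹ z) - s⁻¹ z) := by
    rw [map_sub, AlgEquiv.mul_apply, AlgEquiv.mul_apply, ← AlgEquiv.mul_apply s s⁻¹,
      mul_inv_cancel, AlgEquiv.one_apply]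
  rw [e, nrm]
  exact h1

end Pool.Agent.N848.Sch
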