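import Mathlib
import Pool.Agent.N848.Sch.E

/-!
# The vanishing theorem for cyclic extensions of degree a power of three
-/

set_option autoImplicit false
set_option linter.unusedSectionVars false

namespace Pool.Agent.N848.Sch

open Pool.Agent.Y692.QS
open Pool.Agent.Y715.T.Gi Pool.Agent.Y715.T.Nr Pool.Agent.Y715.T.Red Pool.Agent.Y715.T.Df
open Pool.Agent.Y715.T.Sel
open Pool.Agent.Y715.T.Rec (cs)
open Pool.Agent.Y715.T.RecG (Pq)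

variable {i₀ : QB} {k : ℕ} {a : GK i₀ → ZMod (3 ^ (k + 1))} {t : GK i₀} {r : ℤ} {ct : GK i₀ → Om}
  {ζ : Om}

/-- reduction modulo three -/
def pr (k : ℕ) : ZMod (3 ^ (k + 1)) →+* ZMod 3 := par (Nat.succ_ne_zero k)

lemma unit_of {x : ZMod (3 ^ (k + 1))} (h : pr k x ≠ 0) : IsUnit x := by
  have h1 : ((x.val : ℕ) : ZMod (3 ^ (k + 1))) = x := ZMod.natCast_zmod_val x
  rw [← h1, ZMod.isUnit_iff_coprime]
  apply Nat.Coprime.pow_right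
  rw [Nat.coprime_comm, Nat.Prime.coprime_iff_not_dvd Nat.prime_three]
  intro h2
  apply h
  rw [← h1, map_natCast]
  exact (ZMod.natCast_eq_zero_iff _ _).2 h2

lemma E_conj (r : ℤ) (g h : GK i₀) : E r (g * h * g⁻¹) = E r h := by
  rw [E_mul, E_mul]
  have h1 : E r g * E r g⁻¹ = 1 := by rw [← E_mul, mul_inv_cancel, E_one]
  linear_combination (E r h) * h1

lemma E_conj' (r : ℤ) (g h : GK i₀) : E r (g⁻¹ * h * g) = E r h := by
  have := E_conj r g⁻¹ h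
  rwa [inv_inv] at this

section

variable (hi : i₀ ^ 2 + i₀ + 1 = 0) (hζ : IsPrimitiveRoot ζ (3 ^ (k + 1)))
  (ha : ∀ σ τ, a (σ * τ) = a σ + a τ) (hlc : IsLocallyConstant a) (ht : a t = 1)
  (hct : ∀ σ τ, a σ = 0 → a τ = 0 → ct (σ * τ) = ct σ + E r σ * ct τ)
  (hcc : Continuous ct) (hcF : ∀ g, ct g ∈ Fz ζ)
  (H1 : ∀ (p : ℕ) [Fact p.Prime] (ι : QB →ₐ[ℚ] PadicAlgCl p), p ≠ 3 →
    ∀ (τ : Au p) (σ : GK i₀), Cmp ι τ σ → Inert τ → a σ = 0 → ct σ = 0)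
  (H3 : ∀ ι : QB →ₐ[ℚ] PadicAlgCl 3, ∃ y : ℤ_[3], ∀ (τ : Au 3) (σ : GK i₀), Cmp ι τ σ →
    a σ = 0 → ct σ = (E r σ - 1) * om y) (hr : r ≠ 0)

include hi hζ ha ht hct H3 hr in
/-- the place above three -/
theorem dec_three (j : ZMod (3 ^ (k + 1))) (ι : QB →ₐ[ℚ] PadicAlgCl 3) :
    ∃ z ∈ Fz ζ, ∀ (τ : Au 3) (g : GK i₀), Cmp ι τ g →
      cj ζ a t r ct j g = (rho ζ a r j g - 1) * z := by
  choose y hy using fun i : ZMod (3 ^ (k + 1)) => H3 (ι.comp (gh (T t i)))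
  set z : Om := ∑ i : ZMod (3 ^ (k + 1)), zt ζ (-(i * j)) * E r (T t i) * om (y i) with hz
  refine ⟨z, sum_mem fun i _ => mul_mem (mul_mem (zt_mem _) (E_mem _ _ _)) (om_mem _ _), ?_⟩
  have hker : ∀ (τ : Au 3) (g : GK i₀), Cmp ι τ g → a g = 0 →
      cj ζ a t r ct j g = (rho ζ a r j g - 1) * z := by
    intro τ g hc hg
    have e1 : rho ζ a r j g = E r g := by
      unfold rho
      rw [hg, mul_zero, neg_zero, zt_zero, one_mul]
    rw [cj_ker hg, e1, hz, Finset.mul_sum]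
    refine Finset.sum_congr rfl fun i _ => ?_
    have h1 : a ((T t i)⁻¹ * g * T t i) = 0 := by
      rw [ha, ha, a_inv ha, hg]
      ring
    rw [hy i τ _ (cmp_conj hc (T t i)) h1, E_conj']
    ring
  intro τ g hc
  obtain ⟨τ₁, σ₁, hc₁, hE⟩ := exists_E_ne hi ι hr (n := 3 ^ (k + 1)) (by positivity)
  set h := σ₁ ^ 3 ^ (k + 1) with hh
  have hcn := cmp_pow hc₁ (3 ^ (k + 1))
  have hah : a h = 0 := by
    rw [hh, a_pow ha, CharP.cast_eq_zero, zero_mul]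
  have hah' : a (g * h * g⁻¹) = 0 := by
    rw [ha, ha, a_inv ha, hah]
    ring
  have hcmp' : Cmp ι (τ * τ₁ ^ 3 ^ (k + 1) * τ⁻¹) (g * h * g⁻¹) := (hc.mul hcn).mul (cmp_inv hc)
  have h1 := hker _ _ hcn hah
  have h2 := hker _ _ hcmp' hah'
  have hζn := hζ.pow_eq_one
  have h3 := cj_mul (ζ := ζ) (r := r) (ct := ct) hζn ha ht hct j g h
  have h4 := cj_mul (ζ := ζ) (r := r) (ct := ct) hζn ha ht hct j (g * h * g⁻¹) g
  have e2 : g * h * g⁻¹ * g = g * h := by group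
  have e3 : rho ζ a r j (g * h * g⁻¹) = E r h := by
    unfold rho
    rw [hah', mul_zero, neg_zero, zt_zero, one_mul, E_conj]
  have e4 : rho ζ a r j h = E r h := by
    unfold rho
    rw [hah, mul_zero, neg_zero, zt_zero, one_mul]
  rw [e2, h3, h1, h2, e3, e4] at h4
  have h5 : (E r h - 1) * (cj ζ a t r ct j g - (rho ζ a r j g - 1) * z) = 0 := by
    linear_combination -h4
  exact sub_eq_zero.1 ((mul_eq_zero.1 h5).resolve_left (sub_ne_zero.2 hE))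

include ha H1 in
lemma cj_inert {p : ℕ} [Fact p.Prime] (hp : p ≠ 3) {ι : QB →ₐ[ℚ] PadicAlgCl p} {τ : Au p}
    {σ : GK i₀} (hc : Cmp ι τ σ) (hτ : Inert τ) (hσ : a σ = 0) (j : ZMod (3 ^ (k + 1))) :
    cj ζ a t r ct j σ = 0 := by
  rw [cj_ker hσ]
  refine Finset.sum_eq_zero fun i _ => ?_
  have h1 : a ((T t i)⁻¹ * σ * T t i) = 0 := by
    rw [ha, ha, a_inv ha, hσ]
    ring
  rw [H1 p _ hp τ _ (cmp_conj hc (T t i)) hτ h1, mul_zero]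

lemma rho_inert {p : ℕ} [Fact p.Prime] (hp : p ≠ 3) {ι : QB →ₐ[ℚ] PadicAlgCl p} {τ : Au p}
    {σ : GK i₀} (hc : Cmp ι τ σ) (hτ : Inert τ) (j : ZMod (3 ^ (k + 1))) :
    rho ζ a r j σ = zt ζ (-(j * a σ)) := by
  unfold rho
  rw [E_inert hp hc hτ, mul_one]

lemma rho_sub_lt (hi : i₀ ^ 2 + i₀ + 1 = 0) (hζ : IsPrimitiveRoot ζ (3 ^ (k + 1)))
    (j : ZMod (3 ^ (k + 1))) (g : GK i₀) : ‖rho ζ a r j g - 1‖ < 1 := by
  unfold rho
  have h1 : (zt ζ (-(j * a g))) ^ 3 ^ (k + 1) = 1 := by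
    unfold zt
    rw [← pow_mul, mul_comm, pow_mul, hζ.pow_eq_one, one_pow]
  have e : zt ζ (-(j * a g)) * E r g - 1 =
      (zt ζ (-(j * a g)) - 1) + zt ζ (-(j * a g)) * (E r g - 1) := by ring
  rw [e]
  exact add_lt (root_lt h1) (mul_lt (root_norm h1).le (E_sub_lt hi r g))

/-- cocycles on the decomposition group of a ramified prime -/
theorem dec_ram (hζ : IsPrimitiveRoot ζ (3 ^ (k + 1))) (ha : ∀ σ τ, a (σ * τ) = a σ + a τ)
    {j : ZMod (3 ^ (k + 1))} (hj : j ≠ 0) {c : GK i₀ → Om}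
    (hc : ∀ g h, c (g * h) = c g + rho ζ a r j g * c h) {p : ℕ} [Fact p.Prime] (hp : p ≠ 3)
    {ι : QB →ₐ[ℚ] PadicAlgCl p}
    (h0 : ∀ (τ : Au p) (σ : GK i₀), Cmp ι τ σ → Inert τ → a σ = 0 → c σ = 0)
    {τ₁ : Au p} {σ₁ : GK i₀} (hc₁ : Cmp ι τ₁ σ₁) (hτ₁ : Inert τ₁) (hu : IsUnit (a σ₁)) :
    rho ζ a r j σ₁ ≠ 1 ∧ ∃ z : Om, ∀ (τ : Au p) (g : GK i₀), Cmp ι τ g →
      c g = (rho ζ a r j g - 1) * z := by
  have hne : rho ζ a r j σ₁ ≠ 1 := by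
    rw [rho_inert hp hc₁ hτ₁]
    refine zt_ne_one hζ (neg_ne_zero.2 ?_)
    intro h
    exact hj (hu.mul_left_eq_zero.1 h)
  have hρm := rho_mul (r := r) hζ.pow_eq_one ha j
  refine ⟨hne, c σ₁ / (rho ζ a r j σ₁ - 1), fun τ g hg => ?_⟩
  set z := c σ₁ / (rho ζ a r j σ₁ - 1) with hz
  have hz1 : c σ₁ = (rho ζ a r j σ₁ - 1) * z := by
    rw [hz, mul_div_cancel₀ _ (sub_ne_zero.2 hne)]
  -- the conjugate of `σ₁`
  set h := σ₁⁻¹ * (g * σ₁ * g⁻¹) with hh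
  have hch : Cmp ι (τ₁⁻¹ * (τ * τ₁ * τ⁻¹)) h := (cmp_inv hc₁).mul ((hg.mul hc₁).mul (cmp_inv hg))
  have hih : Inert (τ₁⁻¹ * (τ * τ₁ * τ⁻¹)) := inert_mul (inert_inv hτ₁) (inert_conj hτ₁ τ)
  have hah : a h = 0 := by
    rw [hh, ha, ha, ha, a_inv ha, a_inv ha]
    ring
  have h1 := h0 _ _ hch hih hah
  have e1 : g * σ₁ = σ₁ * h * g := by rw [hh]; group
  have h2 : c (g * σ₁) = c (σ₁ * h * g) := by rw [e1]
  have e2 : rho ζ a r j h = 1 := by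
    rw [rho_inert hp hch hih, hah, mul_zero, neg_zero, zt_zero]
  rw [hc, hc, hc, h1, hρm, e2, mul_zero, add_zero, mul_one, hz1] at h2
  have h3 : (rho ζ a r j σ₁ - 1) * (c g - (rho ζ a r j g - 1) * z) = 0 := by
    linear_combination -h2
  exact sub_eq_zero.1 ((mul_eq_zero.1 h3).resolve_left (sub_ne_zero.2 hne))

/-- the residue of a cocycle at a ramified prime -/
theorem res_ram (hi : i₀ ^ 2 + i₀ + 1 = 0) (hζ : IsPrimitiveRoot ζ (3 ^ (k + 1)))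
    {j : ZMod (3 ^ (k + 1))} {c : GK i₀ → Om} (hc1 : ∀ g, ‖c g‖ ≤ 1) {p : ℕ} [Fact p.Prime]
    (hp : p ≠ 3) {ι : QB →ₐ[ℚ] PadicAlgCl p} {τ₁ : Au p} {σ₁ : GK i₀} (hc₁ : Cmp ι τ₁ σ₁)
    (hτ₁ : Inert τ₁) (hu : IsUnit (a σ₁)) (hne : rho ζ a r j σ₁ ≠ 1) {z : Om}
    (hz : ∀ (τ : Au p) (g : GK i₀), Cmp ι τ g → c g = (rho ζ a r j g - 1) * z)
    {τ : Au p} {g : GK i₀} (hg : Cmp ι τ g) :
    ‖c g - (((a g * (↑hu.unit⁻¹ : ZMod (3 ^ (k + 1)))).val : ℕ) : Om) * c σ₁‖ < 1 := by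
  set m : ℕ := (a g * (↑hu.unit⁻¹ : ZMod (3 ^ (k + 1)))).val with hm
  have hm' : (m : ZMod (3 ^ (k + 1))) * a σ₁ = a g := by
    rw [hm, ZMod.natCast_zmod_val, mul_assoc, hu.val_inv_mul, mul_one]
  set ξ := rho ζ a r j σ₁ with hξ
  have hξ' : ξ = zt ζ (-(j * a σ₁)) := rho_inert hp hc₁ hτ₁ j
  have hξn : ξ ^ 3 ^ (k + 1) = 1 := by
    rw [hξ']
    unfold zt
    rw [← pow_mul, mul_comm, pow_mul, hζ.pow_eq_one, one_pow]
  have hzm : ∀ l : ℕ, zt ζ (-(j * ((l : ZMod (3 ^ (k + 1))) * a σ₁))) = ξ ^ l := by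
    intro l
    induction l with
    | zero => rw [Nat.cast_zero, zero_mul, mul_zero, neg_zero, zt_zero, pow_zero]
    | succ l ih =>
      have e0 : -(j * (((l + 1 : ℕ) : ZMod (3 ^ (k + 1))) * a σ₁)) =
          -(j * ((l : ZMod (3 ^ (k + 1))) * a σ₁)) + -(j * a σ₁) := by
        push_cast
        ring
      rw [e0, zt_add hζ.pow_eq_one, ih, ← hξ', pow_succ ξ l]
  have hρg : rho ζ a r j g = ξ ^ m * E r g := by
    unfold rho
    rw [← hm', hzm]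
  have hn1 : ‖ξ‖ = 1 := root_norm hξn
  have hgt : 1 / 3 < ‖ξ - 1‖ := root_gt hξn hne
  have hcs : ‖(ξ - 1) * z‖ ≤ 1 := by
    rw [← hz τ₁ σ₁ hc₁]
    exact hc1 σ₁
  have hzn : ‖z‖ < 3 := by
    rw [norm_mul] at hcs
    by_contra hcon
    push Not at hcon
    nlinarith [norm_nonneg z]
  rw [hz τ g hg, hz τ₁ σ₁ hc₁, hρg, ← hξ]
  have e : (ξ ^ m * E r g - 1) * z - (m : Om) * ((ξ - 1) * z) =
      ((ξ - 1) * z) * (∑ i ∈ Finset.range m, (ξ ^ i - 1)) + ξ ^ m * ((E r g - 1) * z) := by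
    have h1 : (ξ - 1) * ∑ i ∈ Finset.range m, ξ ^ i = ξ ^ m - 1 := by
      rw [mul_comm, geom_sum_mul]
    have h2 : ∑ i ∈ Finset.range m, (ξ ^ i - 1) = (∑ i ∈ Finset.range m, ξ ^ i) - m := by
      rw [Finset.sum_sub_distrib]
      simp
    rw [h2]
    linear_combination -z * h1
  rw [e]
  refine add_lt ?_ ?_
  · refine mul_lt hcs ?_
    have h3 : ∀ i : ℕ, ‖ξ ^ i - 1‖ < 1 := by
      intro i
      apply root_lt (m := k + 1)
      rw [← pow_mul, mul_comm, pow_mul, hξn, one_pow]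
    have h4 : ∀ m : ℕ, ‖∑ i ∈ Finset.range m, (ξ ^ i - 1)‖ < 1 := by
      intro m
      induction m with
      | zero => rw [Finset.sum_range_zero, norm_zero]; exact one_pos
      | succ m ih => rw [Finset.sum_range_succ]; exact add_lt ih (h3 m)
    exact h4 m
  · rw [norm_mul, norm_pow, hn1, one_pow, one_mul, norm_mul]
    have h5 := E_sub hi r g
    have h6 := norm_nonneg z
    nlinarith [norm_nonneg (E r g - 1)]

end

end Pool.Agent.N848.Sch
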