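import Mathlib
import Pool.Agent.N848.Sch.F

/-!
# The vanishing theorem for cyclic extensions of degree a power of three: the end of the proof
-/

set_option autoImplicit false
set_option linter.unusedSectionVars false

namespace Pool.Agent.N848.Sch

open Pool.Agent.Y692.QS
open Pool.Agent.Y715.T.Gi Pool.Agent.Y715.T.Nr Pool.Agent.Y715.T.Red Pool.Agent.Y715.T.Df
open Pool.Agent.Y715.T.Sel
open Pool.Agent.Y715.T.Rec (cs)
open Pool.Agent.Y715.T.RecG (Pq)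

variable {i₀ : QB} {k : ℕ} {a : GK i₀ → ZMod (3 ^ (k + 1))} {t : GK i₀} {r : ℤ} {ct : GK i₀ → Om}
  {ζ : Om}

lemma norm_mul_sub_lt {x y : Om} {m : ℕ} {n : ℤ} (h1 : ‖x - (m : Om) * y‖ < 1)
    (h2 : ‖y - n‖ < 1) : ‖x - ((m * n : ℤ) : Om)‖ < 1 := by
  have e : x - ((m * n : ℤ) : Om) = (x - (m : Om) * y) + (m : Om) * (y - n) := by
    push_cast
    ring
  rw [e]
  refine add_lt h1 (mul_lt ?_ h2)
  exact IsUltrametricDist.norm_natCast_le_one _ m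

section

variable (hi : i₀ ^ 2 + i₀ + 1 = 0) (hζ : IsPrimitiveRoot ζ (3 ^ (k + 1)))
  (ha : ∀ σ τ, a (σ * τ) = a σ + a τ) (hlc : IsLocallyConstant a) (ht : a t = 1)
  (hct : ∀ σ τ, a σ = 0 → a τ = 0 → ct (σ * τ) = ct σ + E r σ * ct τ)
  (hcc : Continuous ct) (hcF : ∀ g, ct g ∈ Fz ζ)
  (H1 : ∀ (p : ℕ) [Fact p.Prime] (ι : QB →ₐ[ℚ] PadicAlgCl p), p ≠ 3 →
    ∀ (τ : Au p) (σ : GK i₀), Cmp ι τ σ → Inert τ → a σ = 0 → ct σ = 0)
  (H3 : ∀ ι : QB →ₐ[ℚ] PadicAlgCl 3, ∃ y : ℤ_[3], ∀ (τ : Au 3) (σ : GK i₀), Cmp ι τ σ →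
    a σ = 0 → ct σ = (E r σ - 1) * om y) (hr : r ≠ 0)
  {J : Type} [Fintype J] [DecidableEq J] {π : J → Ei} {e : J → ZMod 3}
  (hπ : PP π) (he : ∀ j, e j ≠ 0)
  (hker : ∀ v : J → ZMod 3, (∀ j, ∑ i, e i * cs (π j) (π i) * (v i - v j) = 0) →
      ∀ i j, v i = v j)
  (h3 : (3 : Ei) ∣ ∏ j, π j ^ (e j).val - 1) (h9 : ¬ (9 : Ei) ∣ ∏ j, π j ^ (e j).val - 1)
  (hχ : Kc hi (∏ j, π j ^ (e j).val) (fun σ => pr k (a σ)))
  (HU : ∀ (p : ℕ) [Fact p.Prime] (ι : QB →ₐ[ℚ] PadicAlgCl p), p ≠ 3 →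
    (∀ j, ¬ ‖ι (ev i₀ hi (π j))‖ < 1) → ∀ (τ : Au p) (σ : GK i₀), Cmp ι τ σ → Inert τ → a σ = 0)

include hζ ha hlc ht hct hcc hcF H1 H3 hr hπ he hker h3 h9 hχ HU in
/-- the components with `j ≠ 0` -/
theorem claim_ne {j : ZMod (3 ^ (k + 1))} (hj : j ≠ 0) :
    ∃ z : Om, ∀ g, cj ζ a t r ct j g = (rho ζ a r j g - 1) * z := by
  obtain ⟨ι₃⟩ := exists_emb3
  obtain ⟨z, hzF, hz⟩ := dec_three hi hζ ha ht hct H3 hr j ι₃
  refine ⟨z, ?_⟩
  by_contra hcon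
  push Not at hcon
  obtain ⟨g₀, hg₀⟩ := hcon
  have hcoc : Coc (rho ζ a r j) (cj ζ a t r ct j) :=
    ⟨cj_cont hlc hcc j, cj_mul hζ.pow_eq_one ha ht hct j⟩
  have hc := hcoc.sub (rho_mul hζ.pow_eq_one ha j) (rho_cont hlc j) z
  set c : GK i₀ → Om := fun g => cj ζ a t r ct j g - (rho ζ a r j g - 1) * z with hcdef
  obtain ⟨u, ψ, hu, hle, hval, hex, hψlc, hψm, g₁, hg₁⟩ := residue_hom (RF_Fz hζ)
    (fun g => rho_sub_lt hi hζ j g) hc
    (fun g => sub_mem (cj_mem hcF j g) (mul_mem (sub_mem (rho_mem j g) (one_mem _)) hzF))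
    ⟨g₀, sub_ne_zero.2 hg₀⟩
  have hzero : ∀ g, c g = 0 → ψ g = 0 := by
    intro g hg
    have h1 := hval g 0 (by rw [hg, mul_zero, Int.cast_zero, sub_zero, norm_zero]; exact one_pos)
    rw [h1, Int.cast_zero]
  have hin0 : ∀ (p : ℕ) [Fact p.Prime] (ι : QB →ₐ[ℚ] PadicAlgCl p), p ≠ 3 →
      ∀ (τ : Au p) (σ : GK i₀), Cmp ι τ σ → Inert τ → a σ = 0 → c σ = 0 := by
    intro p _ ι hp τ σ hcmp hin h0
    have e1 : rho ζ a r j σ = 1 := by
      rw [rho_inert hp hcmp hin, h0, mul_zero, neg_zero, zt_zero]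
    show cj ζ a t r ct j σ - (rho ζ a r j σ - 1) * z = 0
    rw [cj_inert ha H1 hp hcmp hin h0, e1, sub_self, zero_mul, sub_zero]
  apply hg₁
  refine kfin (hi := hi) hπ he hker hχ hψlc hψm ?_ ?_ ι₃ ?_ ?_ g₁
  · intro p _ ι hp hnd τ σ hcmp hin
    exact hzero _ (hin0 p ι hp τ σ hcmp hin (HU p ι hp hnd τ σ hcmp hin))
  · intro j' p _ ι hp hsm
    obtain ⟨τ₁, σ₁, c₁, hc₁, hτ₁, hc0, hs₁⟩ := exists_ram (hi := hi) (hπ.pq j').prime hp ι hsm
    have split : ∏ i, π i ^ (e i).val =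
        (∏ i ∈ Finset.univ.erase j', π i ^ (e i).val) * π j' ^ (e j').val := by
      rw [← Finset.mul_prod_erase Finset.univ (fun i => π i ^ (e i).val) (Finset.mem_univ j')]
      ring
    have hχ₁ : pr k (a σ₁) = e j' * c₁ := by
      have := ram_exp' (x := (e j').val) (hπ.pq j').prime
        (hπ.not_dvd_prod j' (fun j => (e j).val)) (by
          rw [← split]
          exact hχ) hp ι hsm hc₁ hτ₁ hs₁
      rw [this, ZMod.natCast_zmod_val]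
    have hχ0 : pr k (a σ₁) ≠ 0 := by
      rw [hχ₁]
      exact mul_ne_zero (he j') hc0
    have hunit := unit_of hχ0
    obtain ⟨hne, z', hz'⟩ := dec_ram hζ ha hj hc.mul hp (ι := ι)
      (fun τ σ hcmp hin h0 => hin0 p ι hp τ σ hcmp hin h0) hc₁ hτ₁ hunit
    obtain ⟨n, hn⟩ := hex σ₁
    have hψ₁ := hval σ₁ n hn
    refine ⟨(pr k (a σ₁))⁻¹ * ψ σ₁, fun τ σ hcmp => ?_⟩
    have h5 := res_ram (c := fun g => u * c g) hi hζ hle hp hc₁ hτ₁ hunit hne (z := u * z')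
      (fun τ g hg => by
        show u * c g = _
        rw [hz' τ g hg]
        ring) hcmp
    have h6 := norm_mul_sub_lt h5 hn
    have h7 := hval σ _ h6
    rw [h7, hψ₁]
    push_cast
    have h8 : (((a σ * (↑hunit.unit⁻¹ : ZMod (3 ^ (k + 1)))).val : ℕ) : ZMod 3) =
        pr k (a σ) * (pr k (a σ₁))⁻¹ := by
      have e1 : ∀ x : ZMod (3 ^ (k + 1)), ((x.val : ℕ) : ZMod 3) = pr k x := by
        intro x
        conv_rhs => rw [← ZMod.natCast_zmod_val x, map_natCast]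
      rw [e1, map_mul]
      congr 1
      have e2 : pr k (↑hunit.unit⁻¹ : ZMod (3 ^ (k + 1))) * pr k (a σ₁) = 1 := by
        rw [← map_mul, hunit.val_inv_mul, map_one]
      exact eq_inv_of_mul_eq_one_left e2
    rw [h8]
    ring
  · intro τ σ hcmp
    apply hzero
    show cj ζ a t r ct j σ - (rho ζ a r j σ - 1) * z = 0
    rw [hz τ σ hcmp, sub_self]
  · intro _
    exact exists_three h3 h9 hχ ι₃

include hi hζ ha hlc ht hct hcc hcF H1 H3 hr in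
/-- the component with `j = 0` -/
theorem claim_zero :
    ∃ z : Om, ∀ g, cj ζ a t r ct 0 g = (rho ζ a r 0 g - 1) * z := by
  obtain ⟨ι₃⟩ := exists_emb3
  obtain ⟨z, hzF, hz⟩ := dec_three hi hζ ha ht hct H3 hr 0 ι₃
  refine ⟨z, ?_⟩
  by_contra hcon
  push Not at hcon
  obtain ⟨g₀, hg₀⟩ := hcon
  have hcoc : Coc (rho ζ a r 0) (cj ζ a t r ct 0) :=
    ⟨cj_cont hlc hcc 0, cj_mul hζ.pow_eq_one ha ht hct 0⟩
  have hc := hcoc.sub (rho_mul hζ.pow_eq_one ha 0) (rho_cont hlc 0) z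
  set c : GK i₀ → Om := fun g => cj ζ a t r ct 0 g - (rho ζ a r 0 g - 1) * z with hcdef
  obtain ⟨u, ψ, hu, hle, hval, hex, hψlc, hψm, g₁, hg₁⟩ := residue_hom (RF_Fz hζ)
    (fun g => rho_sub_lt hi hζ 0 g) hc
    (fun g => sub_mem (cj_mem hcF 0 g) (mul_mem (sub_mem (rho_mem 0 g) (one_mem _)) hzF))
    ⟨g₀, sub_ne_zero.2 hg₀⟩
  have hzero : ∀ g, c g = 0 → ψ g = 0 := by
    intro g hg
    have h1 := hval g 0 (by rw [hg, mul_zero, Int.cast_zero, sub_zero, norm_zero]; exact one_pos)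
    rw [h1, Int.cast_zero]
  have hE : ∀ g : GK i₀, rho ζ a r 0 g = E r g := by
    intro g
    unfold rho
    rw [zero_mul, neg_zero, zt_zero, one_mul]
  have hin0 : ∀ (p : ℕ) [Fact p.Prime] (ι : QB →ₐ[ℚ] PadicAlgCl p), p ≠ 3 →
      ∀ (τ : Au p) (σ : GK i₀), Cmp ι τ σ → Inert τ → c σ = 0 := by
    intro p _ ι hp τ σ hcmp hin
    have hE1 : rho ζ a r 0 σ = 1 := by rw [hE, E_inert hp hcmp hin]
    have h1 : ∀ m : ℕ, cj ζ a t r ct 0 (σ ^ m) = m * cj ζ a t r ct 0 σ := by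
      intro m
      induction m with
      | zero =>
        rw [pow_zero, Nat.cast_zero, zero_mul]
        exact hcoc.one (rho_one ha 0)
      | succ m ih =>
        have h2 : rho ζ a r 0 (σ ^ m) = 1 := by
          rw [hE, E_inert hp (cmp_pow hcmp m) (inert_pow hin m)]
        have h3 : σ ^ (m + 1) = σ ^ m * σ := pow_succ σ m
        rw [h3, hcoc.mul, ih, h2]
        push_cast
        ring
    have h2 := h1 (3 ^ (k + 1))
    have h3 : a (σ ^ 3 ^ (k + 1)) = 0 := by rw [a_pow ha, CharP.cast_eq_zero, zero_mul]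
    rw [cj_inert ha H1 hp (cmp_pow hcmp _) (inert_pow hin _) h3] at h2
    have h4 : cj ζ a t r ct 0 σ = 0 := by
      rcases mul_eq_zero.1 h2.symm with h5 | h5
      · exfalso
        have : (3 ^ (k + 1) : ℕ) ≠ 0 := by positivity
        exact this (by exact_mod_cast h5)
      · exact h5
    show cj ζ a t r ct 0 σ - (rho ζ a r 0 σ - 1) * z = 0
    rw [h4, hE1, sub_self, zero_mul, sub_zero]
  apply hg₁
  refine kfin (J := Empty) (π := fun x => x.elim) (e := fun x => x.elim) (hi := hi)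
    ⟨fun j => j.elim, fun i => i.elim⟩ (fun j => j.elim) (fun _ _ i => i.elim)
    (χ := fun _ => 0) ?_ hψlc hψm ?_ ?_ ι₃ ?_ ?_ g₁
  · rw [Finset.univ_eq_empty, Finset.prod_empty]
    exact kc_one
  · intro p _ ι hp _ τ σ hcmp hin
    exact hzero _ (hin0 p ι hp τ σ hcmp hin)
  · intro j
    exact j.elim
  · intro τ σ hcmp
    apply hzero
    show cj ζ a t r ct 0 σ - (rho ζ a r 0 σ - 1) * z = 0
    rw [hz τ σ hcmp, sub_self]
  · rintro ⟨j⟩
    exact j.elim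

include hi hζ ha hlc ht hct hcc hcF H1 H3 hr hπ he hker h3 h9 hχ HU in
/-- **The vanishing theorem.** -/
theorem vanish : ∃ y : ℤ_[3], ∀ g, a g = 0 → ct g = (E r g - 1) * om y := by
  have hall : ∀ j : ZMod (3 ^ (k + 1)), ∃ z : Om, ∀ g,
      cj ζ a t r ct j g = (rho ζ a r j g - 1) * z := by
    intro j
    rcases eq_or_ne j 0 with rfl | hj
    · exact claim_zero hi hζ ha hlc ht hct hcc hcF H1 H3 hr
    · exact claim_ne hi hζ ha hlc ht hct hcc hcF H1 H3 hr hπ he hker h3 h9 hχ HU hj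
  choose z hz using hall
  have hn0 : ((3 ^ (k + 1) : ℕ) : Om) ≠ 0 := by
    have : (3 ^ (k + 1) : ℕ) ≠ 0 := by positivity
    exact_mod_cast this
  have hct' : ∀ g, a g = 0 → ct g = (E r g - 1) * ((∑ j, z j) / ((3 ^ (k + 1) : ℕ) : Om)) := by
    intro g hg
    have h1 := cj_sum (t := t) (r := r) (ct := ct) hζ hg
    have h2 : ∑ j : ZMod (3 ^ (k + 1)), cj ζ a t r ct j g = (E r g - 1) * ∑ j, z j := by
      rw [Finset.mul_sum]
      refine Finset.sum_congr rfl fun j _ => ?_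
      rw [hz j g]
      unfold rho
      rw [hg, mul_zero, neg_zero, zt_zero, one_mul]
    rw [h2] at h1
    rw [mul_div_assoc', h1, mul_div_cancel_left₀ _ hn0]
  obtain ⟨ι₃⟩ := exists_emb3
  obtain ⟨y, hy⟩ := H3 ι₃
  obtain ⟨τ, σ, hcmp, hE⟩ := exists_E_ne hi ι₃ hr (n := 3 ^ (k + 1)) (by positivity)
  have haσ : a (σ ^ 3 ^ (k + 1)) = 0 := by rw [a_pow ha, CharP.cast_eq_zero, zero_mul]
  have h4 := hy _ _ (cmp_pow hcmp _) haσ
  rw [hct' _ haσ] at h4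
  have h5 := mul_left_cancel₀ (sub_ne_zero.2 hE) h4
  refine ⟨y, fun g hg => ?_⟩
  rw [hct' g hg, h5]

end

end Pool.Agent.N848.Sch
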