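import Mathlib
import Pool.Agent.N848.Sch.C2
import Pool.Agent.N848.Sch.G

/-!
# The rank of the groups of cocycles
-/

set_option autoImplicit false
set_option linter.unusedSectionVars false

namespace Pool.Agent.N848.Sch

open Pool.Agent.Y692.QS
open Pool.Agent.Y715.T.Gi Pool.Agent.Y715.T.Nr Pool.Agent.Y715.T.Red Pool.Agent.Y715.T.Df
open Pool.Agent.Y715.T.Sel
open Pool.Agent.Y715.T.Rec (cs)
open Pool.Agent.Y715.T.RecG (Pq)

/-! ### Residues of bounded cocycles -/

section

variable {G : Type} [Group G] [TopologicalSpace G] [IsTopologicalGroup G] [CompactSpace G]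
  {ρ c : G → Om}

/-- `ψ` is the residue of `c` -/
structure IsRes (c : G → Om) (ψ : G → ZMod 3) : Prop where
  val : ∀ (g : G) (n : ℤ), ‖c g - n‖ < 1 → ψ g = n
  ex : ∀ g, ∃ n : ℤ, ‖c g - n‖ < 1

lemma IsRes.zero {ψ : G → ZMod 3} (h : IsRes c ψ) {g : G} (hg : c g = 0) : ψ g = 0 := by
  have h1 := h.val g 0 (by rw [hg, Int.cast_zero, sub_zero, norm_zero]; exact one_pos)
  rw [h1, Int.cast_zero]

/-- the residue of a bounded cocycle -/
theorem residue_one {F : Subfield Om} (hF : RF F) (hρ1 : ∀ g, ‖ρ g - 1‖ < 1)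
    (hc : Coc ρ c) (hcF : ∀ g, c g ∈ F) (hle : ∀ g, ‖c g‖ ≤ 1) :
    ∃ ψ : G → ZMod 3, IsRes c ψ ∧ IsLocallyConstant ψ ∧ ∀ g h, ψ (g * h) = ψ g + ψ h := by
  have hex : ∀ g, ∃ n : ℤ, ‖c g - n‖ < 1 := fun g => hF _ (hcF g) (hle g)
  choose N hN using hex
  have huniq : ∀ (g : G) (n : ℤ), ‖c g - n‖ < 1 → ((N g : ℤ) : ZMod 3) = n := by
    intro g n hn
    have h1 : ‖((N g - n : ℤ) : Om)‖ < 1 := by
      have e : ((N g - n : ℤ) : Om) = (c g - n) - (c g - N g) := by
        push_cast
        ring
      rw [e]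
      exact sub_lt hn (hN g)
    have h2 := int_small h1
    push_cast at h2
    exact sub_eq_zero.1 h2
  refine ⟨fun g => (N g : ZMod 3), ⟨huniq, fun g => ⟨N g, hN g⟩⟩, ?_, ?_⟩
  · rw [IsLocallyConstant.iff_exists_open]
    intro g
    have hcont : Continuous fun h => ‖c h - c g‖ := (hc.cont.sub continuous_const).norm
    refine ⟨{h | ‖c h - c g‖ < 1}, isOpen_lt hcont continuous_const, ?_, ?_⟩
    · show ‖c g - c g‖ < 1
      rw [sub_self, norm_zero]
      exact one_pos
    · intro h hh
      have hh' : ‖c h - c g‖ < 1 := hh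
      apply huniq
      have e : c h - N g = (c h - c g) + (c g - N g) := by ring
      rw [e]
      exact add_lt hh' (hN g)
  · intro g h
    rw [← Int.cast_add]
    apply huniq
    have e : c (g * h) - ((N g + N h : ℤ) : Om) =
        ((c g - N g) + (c h - N h)) + (c h) * (ρ g - 1) := by
      rw [hc.mul]
      push_cast
      ring
    rw [e]
    exact add_lt (add_lt (hN g) (hN h)) (mul_lt (hle h) (hρ1 g))

/-! ### Orthonormal families -/

/-- orthonormalization -/
theorem ortho {F : Subfield Om} : ∀ (m : ℕ) (W : Submodule F (G → Om)),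
    (∀ f ∈ W, Continuous f ∧ ∀ g, f g ∈ F) → ∀ c : Fin m → (G → Om), (∀ i, c i ∈ W) →
    LinearIndependent F c → ∃ (w : Fin m → (G → Om)) (g : Fin m → G), (∀ i, w i ∈ W) ∧
      (∀ i x, ‖w i x‖ ≤ 1) ∧ (∀ i, w i (g i) = 1) ∧ ∀ i l, l < i → w i (g l) = 0 := by
  intro m
  induction m with
  | zero =>
    intro W _ c _ _
    exact ⟨Fin.elim0, Fin.elim0, fun i => i.elim0, fun i => i.elim0, fun i => i.elim0,
      fun i => i.elim0⟩
  | succ m ih =>
    intro W hW c hc hind
    have hc0 : c 0 ≠ 0 := hind.ne_zero 0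
    obtain ⟨hcont, hcF⟩ := hW _ (hc 0)
    obtain ⟨g0, -, hmax⟩ := isCompact_univ.exists_isMaxOn (Set.univ_nonempty)
      (hcont.norm.continuousOn (s := Set.univ))
    have hmax' : ∀ g, ‖c 0 g‖ ≤ ‖c 0 g0‖ := fun g => hmax (Set.mem_univ g)
    have h0 : c 0 g0 ≠ 0 := by
      intro h
      apply hc0
      funext g
      have := hmax' g
      rw [h, norm_zero] at this
      exact norm_le_zero_iff.1 this
    have hn0 : 0 < ‖c 0 g0‖ := norm_pos_iff.2 h0
    set u : F := ⟨(c 0 g0)⁻¹, inv_mem (hcF g0)⟩ with hu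
    have hu0 : u ≠ 0 := by
      intro h
      have h1 := congrArg Subtype.val h
      exact inv_ne_zero h0 h1
    set w0 : G → Om := u • c 0 with hw0
    have hw0W : w0 ∈ W := W.smul_mem _ (hc 0)
    have hw0v : ∀ g, w0 g = (c 0 g0)⁻¹ * c 0 g := fun g => rfl
    have hw01 : w0 g0 = 1 := by rw [hw0v, inv_mul_cancel₀ h0]
    have hw0le : ∀ g, ‖w0 g‖ ≤ 1 := by
      intro g
      rw [hw0v, norm_mul, norm_inv, inv_mul_le_one₀ hn0]
      exact hmax' g
    set W' : Submodule F (G → Om) :=
      { carrier := {f | f ∈ W ∧ f g0 = 0}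
        zero_mem' := ⟨W.zero_mem, rfl⟩
        add_mem' := fun {a b} ha hb => ⟨W.add_mem ha.1 hb.1, by
          show a g0 + b g0 = 0
          rw [ha.2, hb.2, add_zero]⟩
        smul_mem' := fun x f hf => ⟨W.smul_mem x hf.1, by
          show (x : Om) * f g0 = 0
          rw [hf.2, mul_zero]⟩ } with hW'
    set v : Fin m → F := fun l => ⟨c l.succ g0, (hW _ (hc l.succ)).2 g0⟩ with hv
    set c' : Fin m → (G → Om) := fun l => c l.succ - v l • w0 with hc'
    have hc'W : ∀ l, c' l ∈ W' := by
      intro l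
      refine ⟨W.sub_mem (hc _) (W.smul_mem _ hw0W), ?_⟩
      show c l.succ g0 - c l.succ g0 * w0 g0 = 0
      rw [hw01, mul_one, sub_self]
    have hind' : LinearIndependent F c' := by
      rw [Fintype.linearIndependent_iff]
      intro x hx
      rw [Fintype.linearIndependent_iff] at hind
      set y : Fin (m + 1) → F := Fin.cons (-(∑ l, x l * v l) * u) x with hy
      have h1 : ∑ i, y i • c i = 0 := by
        rw [Fin.sum_univ_succ, hy, Fin.cons_zero]
        simp only [Fin.cons_succ]
        rw [← hx]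
        simp only [hc', smul_sub]
        rw [Finset.sum_sub_distrib, hw0]
        have h2 : ∑ l, x l • v l • u • c 0 = ((∑ l, x l * v l) * u) • c 0 := by
          rw [Finset.sum_mul, Finset.sum_smul]
          refine Finset.sum_congr rfl fun l _ => ?_
          rw [smul_smul, smul_smul, mul_assoc]
        rw [h2, neg_mul, neg_smul]
        abel
      intro l
      have h2 := hind y h1 l.succ
      rwa [hy, Fin.cons_succ] at h2
    obtain ⟨w', g', h1, h2, h3, h4⟩ := ih W' (fun f hf => hW f hf.1) c' hc'W hind'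
    refine ⟨Fin.cons w0 w', Fin.cons g0 g', ?_, ?_, ?_, ?_⟩
    · intro i
      refine Fin.cases ?_ (fun l => ?_) i
      · exact hw0W
      · exact (h1 l).1
    · intro i x
      refine Fin.cases ?_ (fun l => ?_) i
      · exact hw0le x
      · exact h2 l x
    · intro i
      refine Fin.cases ?_ (fun l => ?_) i
      · exact hw01
      · exact h3 l
    · intro i l
      refine Fin.cases ?_ (fun i => ?_) i
      · intro h
        exact absurd h (Fin.not_lt_zero l)
      · refine Fin.cases ?_ (fun l => ?_) l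
        · intro _
          exact (h1 i).2
        · intro h
          exact h4 i l (Fin.succ_lt_succ_iff.1 h)

/-- distinct residues -/
theorem res_inj {m : ℕ} {w : Fin m → (G → Om)} {g : Fin m → G} (h1 : ∀ i, w i (g i) = 1)
    (h0 : ∀ i l, l < i → w i (g l) = 0) {Ψ : (Fin m → ZMod 3) → G → ZMod 3}
    (hΨ : ∀ a, IsRes (fun x => ∑ i, ((a i).val : Om) * w i x) (Ψ a)) :
    Function.Injective Ψ := by
  intro a b hab
  have hval : ∀ (a : Fin m → ZMod 3) (l : Fin m),
      ∑ i, ((a i).val : Om) * w i (g l) =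
        (∑ i ∈ Finset.univ.filter (· < l), ((a i).val : Om) * w i (g l)) + ((a l).val : Om) := by
    intro a l
    have h2 : ∀ i, ((a i).val : Om) * w i (g l) =
        (if i < l then ((a i).val : Om) * w i (g l) else 0) +
          (if i = l then ((a l).val : Om) else 0) := by
      intro i
      rcases lt_trichotomy i l with h | h | h
      · rw [if_pos h, if_neg h.ne, add_zero]
      · subst h
        rw [if_neg (lt_irrefl _), if_pos rfl, h1, mul_one, zero_add]
      · rw [if_neg h.not_gt, if_neg h.ne', h0 i l h, mul_zero, add_zero]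
    rw [Finset.sum_congr rfl fun i _ => h2 i, Finset.sum_add_distrib, Finset.sum_filter,
      Finset.sum_ite_eq' Finset.univ l, if_pos (Finset.mem_univ l)]
  funext l
  induction l using WellFoundedLT.induction with
  | ind l ih =>
    obtain ⟨n, hn⟩ := (hΨ a).ex (g l)
    obtain ⟨n', hn'⟩ := (hΨ b).ex (g l)
    have e1 := (hΨ a).val _ _ hn
    have e2 := (hΨ b).val _ _ hn'
    rw [hab, e2] at e1
    have h3 : ‖((((a l).val : ℤ) - ((b l).val : ℤ) - (n - n') : ℤ) : Om)‖ < 1 := by
      have e : ((((a l).val : ℤ) - ((b l).val : ℤ) - (n - n') : ℤ) : Om) =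
          ((∑ i, ((a i).val : Om) * w i (g l)) - n) - ((∑ i, ((b i).val : Om) * w i (g l)) - n') := by
        rw [hval a l, hval b l]
        have e3 : ∑ i ∈ Finset.univ.filter (· < l), ((a i).val : Om) * w i (g l) =
            ∑ i ∈ Finset.univ.filter (· < l), ((b i).val : Om) * w i (g l) := by
          refine Finset.sum_congr rfl fun i hi => ?_
          rw [ih i (Finset.mem_filter.1 hi).2]
        rw [e3]
        push_cast
        ring
      rw [e]
      exact sub_lt hn hn'
    have h4 := int_small h3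
    push_cast at h4
    rw [ZMod.natCast_zmod_val, ZMod.natCast_zmod_val, ← e1, sub_self, sub_zero] at h4
    exact sub_eq_zero.1 h4

end

end Pool.Agent.N848.Sch
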