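import Mathlib
import Pool.Agent.N848.Sch.H

/-!
# The rank of the groups of cocycles: the bound
-/

set_option autoImplicit false
set_option linter.unusedSectionVars false

namespace Pool.Agent.N848.Sch

open Pool.Agent.Y692.QS
open Pool.Agent.Y715.T.Gi Pool.Agent.Y715.T.Nr Pool.Agent.Y715.T.Red Pool.Agent.Y715.T.Df
open Pool.Agent.Y715.T.Sel
open Pool.Agent.Y715.T.Rec (cs)
open Pool.Agent.Y715.T.RecG (Pq)

variable {i₀ : QB} {k : ℕ} {a : GK i₀ → ZMod (3 ^ (k + 1))} {t : GK i₀} {r : ℤ}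
  {ζ : Om}

/-- the normalized cocycles for the character `rho j` -/
def WW (ζ : Om) (a : GK i₀ → ZMod (3 ^ (k + 1))) (r : ℤ) (ι₃ : QB →ₐ[ℚ] PadicAlgCl 3)
    (j : ZMod (3 ^ (k + 1))) : Submodule (Fz ζ) (GK i₀ → Om) where
  carrier := {c | Coc (rho ζ a r j) c ∧ (∀ g, c g ∈ Fz ζ) ∧
    (∀ (p : ℕ) [Fact p.Prime] (ι : QB →ₐ[ℚ] PadicAlgCl p), p ≠ 3 →
      ∀ (τ : Au p) (σ : GK i₀), Cmp ι τ σ → Inert τ → a σ = 0 → c σ = 0) ∧
    ∀ (τ : Au 3) (σ : GK i₀), Cmp ι₃ τ σ → c σ = 0}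
  zero_mem' := ⟨⟨continuous_const, fun g h => by simp⟩, fun g => zero_mem _,
    fun p _ ι hp τ σ _ _ _ => rfl, fun τ σ _ => rfl⟩
  add_mem' := fun {c d} hc hd => ⟨⟨hc.1.cont.add hd.1.cont, fun g h => by
      show c (g * h) + d (g * h) = (c g + d g) + rho ζ a r j g * (c h + d h)
      rw [hc.1.mul, hd.1.mul]
      ring⟩, fun g => add_mem (hc.2.1 g) (hd.2.1 g), fun p _ ι hp τ σ h1 h2 h3 => by
      show c σ + d σ = 0
      rw [hc.2.2.1 p ι hp τ σ h1 h2 h3, hd.2.2.1 p ι hp τ σ h1 h2 h3, add_zero], fun τ σ h => by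
      show c σ + d σ = 0
      rw [hc.2.2.2 τ σ h, hd.2.2.2 τ σ h, add_zero]⟩
  smul_mem' := fun x c hc => ⟨⟨continuous_const.mul hc.1.cont, fun g h => by
      show (x : Om) * c (g * h) = (x : Om) * c g + rho ζ a r j g * ((x : Om) * c h)
      rw [hc.1.mul]
      ring⟩, fun g => mul_mem x.2 (hc.2.1 g), fun p _ ι hp τ σ h1 h2 h3 => by
      show (x : Om) * c σ = 0
      rw [hc.2.2.1 p ι hp τ σ h1 h2 h3, mul_zero], fun τ σ h => by
      show (x : Om) * c σ = 0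
      rw [hc.2.2.2 τ σ h, mul_zero]⟩

section

variable (hi : i₀ ^ 2 + i₀ + 1 = 0) (hζ : IsPrimitiveRoot ζ (3 ^ (k + 1)))
  (ha : ∀ σ τ, a (σ * τ) = a σ + a τ) (hlc : IsLocallyConstant a) (ht : a t = 1)
  {J : Type} [Fintype J] [DecidableEq J] {π : J → Ei} {e : J → ZMod 3}
  (hπ : PP π) (he : ∀ j, e j ≠ 0)
  (h3 : (3 : Ei) ∣ ∏ j, π j ^ (e j).val - 1) (h9 : ¬ (9 : Ei) ∣ ∏ j, π j ^ (e j).val - 1)
  (hχ : Kc hi (∏ j, π j ^ (e j).val) (fun σ => pr k (a σ)))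
  (HU : ∀ (p : ℕ) [Fact p.Prime] (ι : QB →ₐ[ℚ] PadicAlgCl p), p ≠ 3 →
    (∀ j, ¬ ‖ι (ev i₀ hi (π j))‖ < 1) → ∀ (τ : Au p) (σ : GK i₀), Cmp ι τ σ → Inert τ → a σ = 0)

include hζ ha hπ he hχ HU in
/-- the residue satisfies the local conditions -/
theorem lcond_ne {j : ZMod (3 ^ (k + 1))} (hj : j ≠ 0) {ι₃ : QB →ₐ[ℚ] PadicAlgCl 3}
    {c : GK i₀ → Om} (hc : c ∈ WW ζ a r ι₃ j) (hle : ∀ g, ‖c g‖ ≤ 1) {ψ : GK i₀ → ZMod 3}
    (hψ : IsRes c ψ) (hψlc : IsLocallyConstant ψ) (hψm : ∀ g h, ψ (g * h) = ψ g + ψ h) :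
    LCond hi π (fun σ => pr k (a σ)) ι₃ ψ := by
  obtain ⟨hcc, hcF, hin0, hdec⟩ := hc
  refine ⟨hψlc, hψm, ?_, ?_, ?_⟩
  · intro p _ ι hp hnd τ σ hcmp hin
    exact hψ.zero (hin0 p ι hp τ σ hcmp hin (HU p ι hp hnd τ σ hcmp hin))
  · intro j' p _ ι hp hsm
    obtain ⟨τ₁, σ₁, c₁, hc₁, hτ₁, hc0, hs₁⟩ := exists_ram (hi := hi) (hπ.pq j').prime hp ι hsm
    have split : ∏ i, π i ^ (e i).val =
        (∏ i ∈ Finset.univ.erase j', π i ^ (e i).val) * π j' ^ (e j').val := by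
      rw [← Finset.mul_prod_erase Finset.univ (fun i => π i ^ (e i).val) (Finset.mem_univ j')]
      ring
    have hχ₁ : pr k (a σ₁) = e j' * c₁ := by
      have := ram_exp' (x := (e j').val) (hπ.pq j').prime
        (hπ.not_dvd_prod j' (fun j => (e j).val)) (by
          rw [← split]
          exact hχ) hp ι hsm hc₁ hτ₁ hs₁
      rw [this, ZMod.natCast_zmod_val]
    have hχ0 : pr k (a σ₁) ≠ 0 := by
      rw [hχ₁]
      exact mul_ne_zero (he j') hc0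
    have hunit := unit_of hχ0
    obtain ⟨hne, z', hz'⟩ := dec_ram hζ ha hj hcc.mul hp (ι := ι)
      (fun τ σ hcmp hin h0 => hin0 p ι hp τ σ hcmp hin h0) hc₁ hτ₁ hunit
    obtain ⟨n, hn⟩ := hψ.ex σ₁
    have hψ₁ := hψ.val σ₁ n hn
    refine ⟨(pr k (a σ₁))⁻¹ * ψ σ₁, fun τ σ hcmp => ?_⟩
    have h5 := res_ram (c := c) hi hζ hle hp hc₁ hτ₁ hunit hne (z := z') hz' hcmp
    have h6 := norm_mul_sub_lt h5 hn
    have h7 := hψ.val σ _ h6
    rw [h7, hψ₁]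
    push_cast
    have h8 : (((a σ * (↑hunit.unit⁻¹ : ZMod (3 ^ (k + 1)))).val : ℕ) : ZMod 3) =
        pr k (a σ) * (pr k (a σ₁))⁻¹ := by
      have e1 : ∀ x : ZMod (3 ^ (k + 1)), ((x.val : ℕ) : ZMod 3) = pr k x := by
        intro x
        conv_rhs => rw [← ZMod.natCast_zmod_val x, map_natCast]
      rw [e1, map_mul]
      congr 1
      have e2 : pr k (↑hunit.unit⁻¹ : ZMod (3 ^ (k + 1))) * pr k (a σ₁) = 1 := by
        rw [← map_mul, hunit.val_inv_mul, map_one]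
      exact eq_inv_of_mul_eq_one_left e2
    rw [h8]
    ring
  · intro τ σ hcmp
    exact hψ.zero (hdec τ σ hcmp)

include hi hζ ha hπ he h3 h9 hχ HU in
/-- the dimension of the space of the normalized cocycles -/
theorem dim_le [Nonempty J] {j : ZMod (3 ^ (k + 1))} (hj : j ≠ 0) {ι₃ : QB →ₐ[ℚ] PadicAlgCl 3}
    {m : ℕ} (c : Fin m → (GK i₀ → Om)) (hc : ∀ l, c l ∈ WW ζ a r ι₃ j)
    (hind : LinearIndependent (Fz ζ) c) : 3 ^ (m + 1) ≤ (Lap π e).ncard := by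
  obtain ⟨w, g, h1, h2, h3', h4⟩ := ortho m (WW ζ a r ι₃ j)
    (fun f hf => ⟨hf.1.cont, hf.2.1⟩) c hc hind
  have hmem : ∀ b : Fin m → ZMod 3,
      (fun x => ∑ i, ((b i).val : Om) * w i x) ∈ WW ζ a r ι₃ j := by
    intro b
    have e1 : (fun x => ∑ i, ((b i).val : Om) * w i x) =
        ∑ i, (((b i).val : ℕ) : Fz ζ) • w i := by
      funext x
      rw [Finset.sum_apply]
      refine Finset.sum_congr rfl fun i _ => ?_
      show _ = (((((b i).val : ℕ) : Fz ζ)) : Om) * w i x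
      push_cast
      rfl
    rw [e1]
    exact Submodule.sum_mem _ fun i _ => Submodule.smul_mem _ _ (h1 i)
  have hle : ∀ (b : Fin m → ZMod 3) (x : GK i₀), ‖∑ i, ((b i).val : Om) * w i x‖ ≤ 1 := by
    intro b x
    refine IsUltrametricDist.norm_sum_le_of_forall_le_of_nonneg zero_le_one fun i _ => ?_
    rw [norm_mul]
    exact mul_le_one₀ (IsUltrametricDist.norm_natCast_le_one _ _) (norm_nonneg _) (h2 i x)
  choose Ψ hΨ1 hΨ2 hΨ3 using fun b : Fin m → ZMod 3 => residue_one (RF_Fz hζ)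
    (fun g => rho_sub_lt (a := a) (r := r) hi hζ j g) (hmem b).1 (hmem b).2.1 (hle b)
  have hinj := res_inj h3' h4 hΨ1
  have hlc := fun b => lcond_ne (r := r) hi hζ ha hπ he hχ HU hj (hmem b) (hle b) (hΨ1 b)
    (hΨ2 b) (hΨ3 b)
  have h5 := ucard hπ he hχ (exists_three h3 h9 hχ ι₃) Ψ hinj hlc
  rw [Fintype.card_fun, ZMod.card, Fintype.card_fin] at h5
  rw [pow_succ]
  exact h5

end

/-- a nonzero linear functional -/
lemma exists_fun {x : Om} (hx : x ≠ 0) : ∃ f : Om →ₗ[ℚ_[3]] ℚ_[3], f x ≠ 0 := by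
  by_contra hcon
  push Not at hcon
  exact hx ((Module.forall_dual_apply_eq_zero_iff ℚ_[3] x).1 hcon)

end Pool.Agent.N848.Sch
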