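import Mathlib
import Pool.Agent.Y274.CT.ExiCnt
import Pool.Agent.Y703.XL.Avg
import Pool.Agent.N848.Sch.C2

/-!
# The Laplacian systems of the elements of `ℤ[ω]`

Adapted from `Pool/Agent/Y696/CTK/GE2.lean` and `Pool/Agent/Y696/XL/Fin.lean`.
-/

set_option autoImplicit false
set_option linter.unusedSectionVars false

open scoped Classical

namespace Pool.Agent.N848.Sch

open Pool.Agent.Y692.QS
open Pool.Agent.Y715.T.Rs Pool.Agent.Y715.T.Rec
open Pool.Agent.Y703.CT
open Pool.Agent.Y715.T.RecG (Pq)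
open Pool.Agent.Y274.CT
open Pool.Agent.Y703.XL (nS)

/-- the primary primes of a product -/
theorem ppr_prod {n : ℕ} {π : Fin n → Ei} (hp : ∀ j, Pq (π j)) :
    ppr (∏ j, π j) = Finset.univ.image π := by
  have hset : {ρ : Ei | Pq ρ ∧ ρ ∣ ∏ j, π j} = ↑(Finset.univ.image π) := by
    ext ρ
    simp only [Set.mem_ofPred_eq, Finset.mem_coe, Finset.mem_image, Finset.mem_univ, true_and]
    constructor
    · rintro ⟨h1, h2⟩
      obtain ⟨j, -, hd⟩ := (h1.prime.dvd_finsetProd_iff _).1 h2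
      exact ⟨j, (eq_of_dvd (hp j) h1 hd).symm⟩
    · rintro ⟨j, rfl⟩
      exact ⟨hp j, Finset.dvd_prod_of_mem _ (Finset.mem_univ j)⟩
  unfold ppr
  have hfin : {ρ : Ei | Pq ρ ∧ ρ ∣ ∏ j, π j}.Finite := by
    rw [hset]
    exact Finset.finite_toSet _
  rw [dif_pos hfin]
  ext ρ
  rw [Set.Finite.mem_toFinset, hset, Finset.mem_coe]

/-- the number of the solutions -/
theorem nS_image {n : ℕ} {π : Fin n → Ei} (hinj : Function.Injective π) :
    nS (Finset.univ.image π) = (Lap π (fun _ => 1)).ncard := by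
  rw [← Nat.card_coe_set_eq]
  unfold nS
  let e : Fin n ≃ (Finset.univ.image π : Finset Ei) :=
    Equiv.ofBijective (fun i => ⟨π i, Finset.mem_image_of_mem _ (Finset.mem_univ i)⟩)
      ⟨fun i k h => hinj (congrArg Subtype.val h), fun x => by
        obtain ⟨i, -, hi⟩ := Finset.mem_image.1 x.2
        exact ⟨i, Subtype.ext hi⟩⟩
  refine Nat.card_congr ((Equiv.arrowCongr e.symm (Equiv.refl (ZMod 3))).subtypeEquiv fun v => ?_)
  show (∀ x : (Finset.univ.image π : Finset Ei), _) ↔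
    ∀ j, ∑ i, (1 : ZMod 3) * cs (π j) (π i) * (v (e i) - v (e j)) = 0
  constructor
  · intro h j
    have h1 := h (e j)
    rw [← Equiv.sum_comp e] at h1
    rw [← h1]
    refine Finset.sum_congr rfl fun i _ => ?_
    rw [one_mul]
    rfl
  · intro h x
    obtain ⟨j, rfl⟩ := e.surjective x
    rw [← Equiv.sum_comp e, ← h j]
    refine Finset.sum_congr rfl fun i _ => ?_
    rw [one_mul]
    rfl

/-- the factorization of the elements of the class -/
theorem exists_fac {D : Ei} (hD : ClsE D) : ∃ (n : ℕ) (π : Fin (n + 1) → Ei), (∀ j, Pq (π j)) ∧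
    Function.Injective π ∧ D = ∏ j, π j := by
  obtain ⟨h3, hsq, h9⟩ := hD
  have hD0 : D ≠ 0 := hsq.ne_zero
  obtain ⟨f, hf, hfD⟩ := UniqueFactorizationMonoid.exists_prime_factors D hD0
  have hf3 : ∀ b ∈ f, ¬ b ∣ 3 := by
    intro b hb hb3
    have h1 : b ∣ D := (Multiset.dvd_prod hb).trans hfD.dvd
    have h2 : b ∣ 1 := by
      have := dvd_sub h1 (hb3.trans h3)
      rwa [sub_sub_cancel] at this
    exact (hf b hb).not_isUnit (isUnit_of_dvd_one h2)
  obtain ⟨s, hs⟩ : ∃ s, s = f.map ns := ⟨_, rfl⟩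
  have hsprod : s.prod = D := by
    have h1 : ns f.prod = s.prod := by
      rw [hs]
      have := map_multiset_prod nsH f
      exact this
    obtain ⟨u, hu⟩ := hfD
    have h2 : ns D = ns f.prod := by rw [← hu, ns_mul, ns_unit u.isUnit, mul_one]
    rw [← h1, ← h2]
    exact ns_fix h3
  have hspq : ∀ a ∈ s, Pq a := by
    intro a ha
    rw [hs, Multiset.mem_map] at ha
    obtain ⟨b, hb, rfl⟩ := ha
    exact pq_ns (hf b hb) (hf3 b hb)
  have hnd : s.Nodup := by
    rw [Multiset.nodup_iff_ne_cons_cons]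
    intro a t h
    rw [← hsprod, h, Multiset.prod_cons, Multiset.prod_cons, ← mul_assoc] at hsq
    have h1 := hsq a (Dvd.intro _ rfl)
    exact (hspq a (by rw [h]; exact Multiset.mem_cons_self _ _)).prime.not_isUnit h1
  obtain ⟨S, hS⟩ : ∃ S : Finset Ei, S = ⟨s, hnd⟩ := ⟨_, rfl⟩
  have hmem : ∀ a, a ∈ S ↔ a ∈ s := by
    intro a
    rw [hS]
    rfl
  have hSprod : ∏ a ∈ S, a = D := by
    rw [← hsprod, hS]
    unfold Finset.prod
    simp
  have hSpq : ∀ a ∈ S, Pq a := fun a ha => hspq a ((hmem a).1 ha)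
  have hne : S.card ≠ 0 := by
    intro h0
    rw [Finset.card_eq_zero] at h0
    rw [h0, Finset.prod_empty] at hSprod
    apply h9
    rw [← hSprod, nr_one, sub_self]
    exact dvd_zero _
  obtain ⟨n, hn⟩ : ∃ n, S.card = n + 1 := Nat.exists_eq_succ_of_ne_zero hne
  obtain ⟨e⟩ : Nonempty (Fin (n + 1) ≃ S) := ⟨(S.equivFinOfCardEq hn).symm⟩
  refine ⟨n, fun i => (e i).1, fun j => hSpq _ (e j).2, fun i j h => e.injective (Subtype.ext h),
    ?_⟩
  rw [← hSprod, ← Finset.prod_coe_sort S (fun a => a)]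
  exact (Equiv.prod_comp e (fun a : S => (a : Ei))).symm

/-- distinct primary primes -/
lemma pp_of {J : Type} {π : J → Ei} (hp : ∀ j, Pq (π j)) (hinj : Function.Injective π) : PP π :=
  ⟨hp, fun i j hij hd => hij (hinj (eq_of_dvd (hp i) (hp j) hd).symm)⟩

/-- the solutions in terms of cubes -/
theorem lap_eq {J : Type} [Fintype J] [DecidableEq J] {π : J → Ei} (hπ : PP π) (e : J → ZMod 3) :
    Lap π e = {v | ∀ j, ∃ y : Ei, π j ∣ ∏ i, π i ^ (e i * (v i - v j)).val - y ^ 3} := by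
  ext v
  refine forall_congr' fun j => ?_
  have hpj := (hπ.pq j).prime
  have h9 := (hπ.pq j).norm
  have hnd := hπ.not_dvd_prod j (fun i => (e i * (v i - v j)).val)
  have hnd1 : ∀ i ∈ Finset.univ.erase j, ¬ π j ∣ π i := fun i hij =>
    hπ.nd i j (Finset.ne_of_mem_erase hij)
  have e1 : ∏ i, π i ^ (e i * (v i - v j)).val =
      ∏ i ∈ Finset.univ.erase j, π i ^ (e i * (v i - v j)).val := by
    rw [← Finset.mul_prod_erase Finset.univ _ (Finset.mem_univ j), sub_self, mul_zero,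
      ZMod.val_zero, pow_zero, one_mul]
  rw [e1, ← Pool.Agent.Y715.T.RecG.cs_zero_iff hpj h9 hnd,
    Pool.Agent.Y715.T.RecG.cs_prod hpj h9 _ _
      (fun i hij h1 => hnd1 i hij (hpj.dvd_of_dvd_pow h1)),
    ← Finset.add_sum_erase Finset.univ _ (Finset.mem_univ j), sub_self, mul_zero, zero_add]
  have e2 : ∀ i ∈ Finset.univ.erase j, cs (π j) (π i ^ (e i * (v i - v j)).val) =
      e i * cs (π j) (π i) * (v i - v j) := by
    intro i hij
    rw [Pool.Agent.Y715.T.RecG.cs_pow hpj h9 (hnd1 i hij), ZMod.natCast_zmod_val]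
    ring
  rw [Finset.sum_congr rfl e2]

end Pool.Agent.N848.Sch
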