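import Mathlib
import Pool.Agent.N848.Sch.K
import Pool.Agent.N848.Sch.L

/-!
# From fields to characters
-/

set_option autoImplicit false
set_option linter.unusedSectionVars false

namespace Pool.Agent.N848.Sch

open Pool.Agent.Y692.QS
open Pool.Agent.Y715.T.Gi Pool.Agent.Y715.T.Nr Pool.Agent.Y715.T.Red Pool.Agent.Y715.T.Df
open Pool.Agent.Y715.T.Sel
open Pool.Agent.Y715.T.Rec (cs)
open Pool.Agent.Y715.T.RecG (Pq)

variable {i₀ : QB}

lemma lc_of {A : Type} {a : GK i₀ → A} (L : IntermediateField (KK i₀) QB)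
    [FiniteDimensional (KK i₀) L] (h : ∀ σ τ, τ ∈ L.fixingSubgroup → a (σ * τ) = a σ) :
    IsLocallyConstant a := by
  rw [IsLocallyConstant.iff_exists_open]
  intro σ
  refine ⟨(fun τ => σ⁻¹ * τ) ⁻¹' (L.fixingSubgroup : Set (GK i₀)),
    L.fixingSubgroup_isOpen.preimage (continuous_const.mul continuous_id), ?_, ?_⟩
  · show σ⁻¹ * σ ∈ L.fixingSubgroup
    rw [inv_mul_cancel]
    exact one_mem _
  · intro τ hτ
    have := h σ (σ⁻¹ * τ) hτ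
    rwa [mul_inv_cancel_left] at this

lemma mem_fix {s : QB} {σ : GK i₀} :
    σ ∈ (IntermediateField.adjoin (KK i₀) {s}).fixingSubgroup ↔ σ s = s := by
  rw [IntermediateField.mem_fixingSubgroup_iff]
  constructor
  · intro h
    exact h s (IntermediateField.mem_adjoin_simple_self (KK i₀) s)
  · intro h x hx
    have h1 : IntermediateField.adjoin (KK i₀) {s} ≤
        IntermediateField.fixedField (Subgroup.zpowers σ) := by
      rw [IntermediateField.adjoin_simple_le_iff, IntermediateField.mem_fixedField_iff]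
      intro τ hτ
      obtain ⟨k, rfl⟩ := hτ
      have h2 : σ ∈ MulAction.stabilizer (GK i₀) s := h
      exact (MulAction.stabilizer (GK i₀) s).zpow_mem h2 k
    exact (IntermediateField.mem_fixedField_iff _ x).1 (h1 hx) σ (Subgroup.mem_zpowers σ)

/-- the Kummer character -/
theorem exists_kc (hi : i₀ ^ 2 + i₀ + 1 = 0) {D : Ei} (hD : D ≠ 0) :
    ∃ χ : GK i₀ → ZMod 3, Kc hi D χ ∧ (∀ σ τ, χ (σ * τ) = χ σ + χ τ) ∧ IsLocallyConstant χ := by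
  obtain ⟨s, hs⟩ := ex_root (ev i₀ hi D)
  have hs0 : s ≠ 0 := root_ne hD hs
  have h1 : ∀ σ : GK i₀, ∃ n : ZMod 3, σ s = i₀ ^ n.val * s := by
    intro σ
    obtain ⟨n, hn⟩ := cube_eq hi (a := σ s) (b := s) (by rw [← map_pow, hs, gk_ev])
    exact ⟨n, by rw [hn, i₀_mod (hi := hi)]⟩
  choose χ hχ using h1
  have hmul : ∀ σ τ, χ (σ * τ) = χ σ + χ τ := by
    intro σ τ
    apply i₀_inj (hi := hi)
    apply mul_right_cancel₀ hs0
    rw [← hχ, AlgEquiv.mul_apply, hχ τ, map_mul, map_pow, gk_fix, hχ σ, i₀_add (hi := hi)]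
    ring
  refine ⟨χ, kc_of hi hs0 hs hχ, hmul, ?_⟩
  have : FiniteDimensional (KK i₀) (IntermediateField.adjoin (KK i₀) {s}) :=
    IntermediateField.adjoin.finiteDimensional (Algebra.IsIntegral.isIntegral s)
  refine lc_of (IntermediateField.adjoin (KK i₀) {s}) fun σ τ hτ => ?_
  have h2 : χ τ = 0 := by
    apply i₀_inj (hi := hi)
    apply mul_right_cancel₀ hs0
    rw [← hχ, ZMod.val_zero, pow_zero, one_mul]
    exact mem_fix.1 hτ
  rw [hmul, h2, add_zero]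

/-- a character with kernel `H` -/
structure Dat (hi : i₀ ^ 2 + i₀ + 1 = 0) (H : Subgroup (GK i₀)) (k : ℕ) (D : Ei)
    (a : GK i₀ → ZMod (3 ^ (k + 1))) : Prop where
  mul : ∀ σ τ, a (σ * τ) = a σ + a τ
  lc : IsLocallyConstant a
  ker : ∀ σ, a σ = 0 ↔ σ ∈ H
  kc : Kc hi D (fun σ => pr k (a σ))
  sur : ∃ t, a t = 1

lemma dat_sur {A : Type} [AddMonoid A] {χ : GK i₀ → ZMod 3}
    (h : ∀ σ τ, χ (σ * τ) = χ σ + χ τ) {σ : GK i₀} (hσ : χ σ ≠ 0) : ∃ t, χ t = 1 := by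
  have h1 : ∀ c : ZMod 3, c ≠ 0 → c = 1 ∨ c + c = 1 := by decide
  rcases h1 _ hσ with h2 | h2
  · exact ⟨σ, h2⟩
  · exact ⟨σ * σ, by rw [h, h2]⟩

/-- the cubic extension `K(∛D)` -/
theorem dat_cubic (hi : i₀ ^ 2 + i₀ + 1 = 0) {D : Ei} (hD : D ≠ 0) {s : QB}
    (hs : s ^ 3 = ev i₀ hi D) (hne : ∀ χ : GK i₀ → ZMod 3, Kc hi D χ → ∃ σ, χ σ ≠ 0) :
    ∃ a, Dat hi (IntermediateField.adjoin (KK i₀) {s}).fixingSubgroup 0 D a := by
  obtain ⟨χ, h1, h2, h3⟩ := exists_kc hi hD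
  obtain ⟨σ, hσ⟩ := hne χ h1
  obtain ⟨t, ht⟩ := dat_sur (A := ℕ) h2 hσ
  set f : ZMod 3 ≃+* ZMod (3 ^ (0 + 1)) := ZMod.ringEquivCongr (by norm_num) with hf
  have hpr : ∀ x, pr 0 (f x) = x := by
    intro x
    have h4 : (pr 0).comp (f : ZMod 3 →+* ZMod (3 ^ (0 + 1))) = RingHom.id (ZMod 3) :=
      Subsingleton.elim _ _
    exact congrArg (fun g : ZMod 3 →+* ZMod 3 => g x) h4
  have hs0 : s ≠ 0 := root_ne hD hs
  refine ⟨fun σ => f (χ σ), fun σ τ => by rw [h2, map_add], h3.comp f, fun σ => ?_, ?_, t, ?_⟩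
  · rw [map_eq_zero_iff f f.injective, mem_fix, h1 s hs σ]
    constructor
    · intro h
      rw [h, ZMod.val_zero, pow_zero, one_mul]
    · intro h
      apply i₀_inj (hi := hi)
      apply mul_right_cancel₀ hs0
      rw [h, ZMod.val_zero, pow_zero, one_mul]
  · exact kc_congr h1 fun σ => hpr _
  · show f (χ t) = 1
    rw [ht, map_one]

/-- cyclic extensions which contain `K(∛D)` -/
theorem dat_cyclic (hi : i₀ ^ 2 + i₀ + 1 = 0) {D : Ei} (hD : D ≠ 0) {s : QB}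
    (hs : s ^ 3 = ev i₀ hi D) (hne : ∀ χ : GK i₀ → ZMod 3, Kc hi D χ → ∃ σ, χ σ ≠ 0)
    {H : Subgroup (GK i₀)} {k : ℕ} (hopen : IsOpen (H : Set (GK i₀)))
    {a : GK i₀ → ZMod (3 ^ (k + 1))} (hsur : Function.Surjective a)
    (hmul : ∀ σ τ, a (σ * τ) = a σ + a τ) (hker : ∀ σ, a σ = 0 ↔ σ ∈ H)
    (hsH : ∀ σ ∈ H, σ s = s) : ∃ a, Dat hi H k D a := by
  have hlc : IsLocallyConstant a := by
    rw [IsLocallyConstant.iff_exists_open]
    intro σ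
    refine ⟨(fun τ => σ⁻¹ * τ) ⁻¹' (H : Set (GK i₀)),
      hopen.preimage (continuous_const.mul continuous_id), ?_, ?_⟩
    · show σ⁻¹ * σ ∈ H
      rw [inv_mul_cancel]
      exact one_mem _
    · intro τ hτ
      have h := hmul σ (σ⁻¹ * τ)
      rw [mul_inv_cancel_left, (hker _).2 hτ, add_zero] at h
      exact h
  obtain ⟨t, ht⟩ : ∃ t, a t = 1 := hsur 1
  obtain ⟨χ, h1, h2, h3⟩ := exists_kc hi hD
  have hs0 : s ≠ 0 := root_ne hD hs
  have hχ0 : ∀ σ, a σ = 0 → χ σ = 0 := by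
    intro σ hσ
    apply i₀_inj (hi := hi)
    apply mul_right_cancel₀ hs0
    rw [← h1 s hs σ, ZMod.val_zero, pow_zero, one_mul]
    exact hsH σ ((hker σ).1 hσ)
  have hχ1 : χ 1 = 0 := by
    have := h2 1 1
    rw [mul_one] at this
    exact left_eq_add.1 this
  have hχp : ∀ m : ℕ, χ (t ^ m) = m * χ t := by
    intro m
    induction m with
    | zero => rw [pow_zero, hχ1, Nat.cast_zero, zero_mul]
    | succ m ih =>
      have e : t ^ (m + 1) = t ^ m * t := pow_succ t m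
      rw [e, h2, ih]
      push_cast
      ring
  have hχ : ∀ σ, χ σ = pr k (a σ) * χ t := by
    intro σ
    have h4 : a (σ * (t ^ (a σ).val)⁻¹) = 0 := by
      rw [hmul, a_inv hmul, a_pow hmul, ht, mul_one, ZMod.natCast_zmod_val, add_neg_cancel]
    have h5 := hχ0 _ h4
    have h6 : χ (σ * (t ^ (a σ).val)⁻¹ * t ^ (a σ).val) = χ σ := by
      rw [inv_mul_cancel_right]
    rw [h2, h5, zero_add, hχp] at h6
    rw [← h6]
    congr 1
    conv_rhs => rw [← ZMod.natCast_zmod_val (a σ), map_natCast]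
  obtain ⟨σ₀, hσ₀⟩ := hne χ h1
  have hχt : χ t ≠ 0 := by
    intro h
    rw [hχ σ₀, h, mul_zero] at hσ₀
    exact hσ₀ rfl
  have h7 : ∀ c : ZMod 3, c ≠ 0 → c = 1 ∨ c = -1 := by decide
  rcases h7 _ hχt with h8 | h8
  · refine ⟨a, hmul, hlc, hker, kc_congr h1 fun σ => ?_, t, ht⟩
    rw [hχ σ, h8, mul_one]
  · refine ⟨fun σ => -a σ, fun σ τ => by rw [hmul]; ring, hlc.comp Neg.neg, fun σ => ?_,
      kc_congr h1 fun σ => ?_, t⁻¹, ?_⟩
    · rw [neg_eq_zero]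
      exact hker σ
    · rw [hχ σ, h8, map_neg]
      ring
    · rw [a_inv hmul, ht, neg_neg]

/-- the rank theorem for fields -/
theorem rank_field {hi : i₀ ^ 2 + i₀ + 1 = 0} {H : Subgroup (GK i₀)} {k : ℕ} {D : Ei}
    {a : GK i₀ → ZMod (3 ^ (k + 1))} (hdat : Dat hi H k D a)
    {J : Type} [Fintype J] [DecidableEq J] {π : J → Ei} {e : J → ZMod 3}
    (hπ : PP π) (he : ∀ j, e j ≠ 0) (hprod : D = ∏ j, π j ^ (e j).val) (h9 : ¬ (9 : Ei) ∣ D - 1)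
    (HU : ∀ (p : ℕ) [Fact p.Prime] (ι : QB →ₐ[ℚ] PadicAlgCl p), p ≠ 3 →
      ¬ ‖ι (ev i₀ hi D)‖ < 1 → ∀ (τ : Au p) (σ : GK i₀), Cmp ι τ σ → Inert τ →
        σ ∈ H)
    {d : ℕ} (hd : (Lap π e).ncard ≤ 3 ^ (d + 1)) {r : ℤ} (hr : r ≠ 0) {m : ℕ}
    (hm : (3 ^ (k + 1) - 1) * d < m) {c : Fin m → H → ℤ_[3]}
    (hcc : ∀ l, Continuous (c l))
    (hct : ∀ l (σ τ : H), c l (σ * τ) = c l σ +
      (((cyc i₀ (σ : GK i₀)) ^ r : ℤ_[3]ˣ) : ℤ_[3]) * c l τ)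
    (H1 : ∀ l (p : ℕ) [Fact p.Prime] (ι : QB →ₐ[ℚ] PadicAlgCl p), p ≠ 3 →
      ∀ (τ : Au p) (σ : H), Cmp ι τ (σ : GK i₀) → Inert τ → c l σ = 0)
    (H3 : ∀ l (ι : QB →ₐ[ℚ] PadicAlgCl 3), ∃ y : ℤ_[3], ∀ (τ : Au 3) (σ : H),
      Cmp ι τ (σ : GK i₀) → c l σ = ((((cyc i₀ (σ : GK i₀)) ^ r : ℤ_[3]ˣ) : ℤ_[3]) - 1) * y) :
    ∃ X : Fin m → ℤ_[3], (∃ l, X l ≠ 0) ∧ ∃ y : ℤ_[3], ∀ σ : H,
      ∑ l, X l * c l σ = ((((cyc i₀ (σ : GK i₀)) ^ r : ℤ_[3]ˣ) : ℤ_[3]) - 1) * y := by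
  classical
  subst hprod
  obtain ⟨ζ, hζ⟩ := HasEnoughRootsOfUnity.exists_primitiveRoot QB (3 ^ (k + 1))
  obtain ⟨ι₀⟩ := exists_emb3
  have hζ' : IsPrimitiveRoot (ι₀ ζ) (3 ^ (k + 1)) := hζ.map_of_injective ι₀.injective
  obtain ⟨t, ht⟩ := hdat.sur
  have hJ : Nonempty J := by
    rw [← not_isEmpty_iff]
    intro hJ
    apply h9
    rw [Finset.univ_eq_empty, Finset.prod_empty, sub_self]
    exact dvd_zero _
  set c' : Fin m → GK i₀ → ℤ_[3] := fun l σ =>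
    if h : σ ∈ H then c l ⟨σ, h⟩ else 0 with hc'
  have hval : ∀ l (σ : H), c' l (σ : GK i₀) = c l σ := by
    intro l σ
    rw [hc']
    exact dif_pos σ.2
  have hval' : ∀ l (σ : GK i₀) (h : σ ∈ H), c' l σ = c l ⟨σ, h⟩ := by
    intro l σ h
    rw [hc']
    exact dif_pos h
  have hclop : IsClopen (H : Set (GK i₀)) := by
    have e1 : (H : Set (GK i₀)) = a ⁻¹' {0} := by
      ext σ
      exact (hdat.ker σ).symm
    rw [e1]
    exact hdat.lc.isClopen_fiber 0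
  have hcont : ∀ l, Continuous (c' l) := by
    intro l
    rw [← continuousOn_univ, ← Set.union_compl_self (H : Set (GK i₀))]
    refine ContinuousOn.union_of_isOpen ?_ ?_ hclop.isOpen hclop.compl.isOpen
    · rw [continuousOn_iff_continuous_domRestrict]
      have e : (↑H : Set (GK i₀)).domRestrict (c' l) = fun σ => c l σ := by
        funext σ
        exact hval l σ
      rw [e]
      exact hcc l
    · refine (continuousOn_const (c := (0 : ℤ_[3]))).congr fun σ hσ => ?_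
      rw [hc']
      exact dif_neg hσ
  obtain ⟨X, hX, y, hy⟩ := rank_le (c := c') hi hζ' hdat.mul hdat.lc ht hπ he
    (hπ.prod_form fun j => (e j).val) h9 hdat.kc
    (fun p _ ι hp hnd τ σ hc hin => (hdat.ker σ).2 (HU p ι hp (fun hlt => by
      rw [map_prod, map_prod, norm_prod] at hlt
      have h1 : ∀ j, ‖ι (ev i₀ hi (π j ^ (e j).val))‖ = 1 := by
        intro j
        have h2 : ‖ι (ev i₀ hi (π j))‖ = 1 := by
          have := hnd j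
          rw [iota_ev] at this ⊢
          exact eq_one_of_not_lt (iota_sq hi ι) this
        rw [map_pow, map_pow, norm_pow, h2, one_pow]
      rw [Finset.prod_congr rfl fun j _ => h1 j, Finset.prod_const_one] at hlt
      exact lt_irrefl _ hlt) τ σ hc hin))
    (fun l σ τ hσ hτ => by
      have hσ' := (hdat.ker σ).1 hσ
      have hτ' := (hdat.ker τ).1 hτ
      rw [hval' l σ hσ', hval' l τ hτ', hval' l (σ * τ) (mul_mem hσ' hτ')]
      have := hct l ⟨σ, hσ'⟩ ⟨τ, hτ'⟩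
      have e1 : (⟨σ * τ, mul_mem hσ' hτ'⟩ : H) = ⟨σ, hσ'⟩ * ⟨τ, hτ'⟩ := rfl
      rw [e1, this, om_add, om_mul]
      rfl)
    hcont
    (fun l p _ ι hp τ σ hc hin hσ => by
      rw [hval' l σ ((hdat.ker σ).1 hσ), H1 l p ι hp τ ⟨σ, (hdat.ker σ).1 hσ⟩ hc hin, om_zero])
    (fun l ι => by
      obtain ⟨y, hy⟩ := H3 l ι
      refine ⟨y, fun τ σ hc hσ => ?_⟩
      rw [hval' l σ ((hdat.ker σ).1 hσ), hy τ ⟨σ, (hdat.ker σ).1 hσ⟩ hc, om_mul, om_sub, om_one]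
      rfl) hr hd hm
  refine ⟨X, hX, y, fun σ => ?_⟩
  rw [← hy (σ : GK i₀) ((hdat.ker _).2 σ.2)]
  refine Finset.sum_congr rfl fun l _ => ?_
  rw [hval]

/-- torsion-freeness -/
theorem tf_field (hi : i₀ ^ 2 + i₀ + 1 = 0) {H : Subgroup (GK i₀)} {k : ℕ} {D : Ei}
    {a : GK i₀ → ZMod (3 ^ (k + 1))} (hdat : Dat hi H k D a) {r : ℤ} (hr : r ≠ 0)
    {c : H → ℤ_[3]}
    (H3 : ∀ (ι : QB →ₐ[ℚ] PadicAlgCl 3), ∃ y : ℤ_[3], ∀ (τ : Au 3) (σ : H),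
      Cmp ι τ (σ : GK i₀) → c σ = ((((cyc i₀ (σ : GK i₀)) ^ r : ℤ_[3]ˣ) : ℤ_[3]) - 1) * y)
    {X : ℤ_[3]} (hX : X ≠ 0) {y : ℤ_[3]} (hy : ∀ σ : H,
      X * c σ = ((((cyc i₀ (σ : GK i₀)) ^ r : ℤ_[3]ˣ) : ℤ_[3]) - 1) * y) :
    ∃ y : ℤ_[3], ∀ σ : H,
      c σ = ((((cyc i₀ (σ : GK i₀)) ^ r : ℤ_[3]ˣ) : ℤ_[3]) - 1) * y := by
  obtain ⟨ι₃⟩ := exists_emb3
  obtain ⟨y', hy'⟩ := H3 ι₃
  obtain ⟨τ, σ, hcmp, hE⟩ := exists_E_ne hi ι₃ hr (n := 3 ^ (k + 1)) (by positivity)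
  have haσ : a (σ ^ 3 ^ (k + 1)) = 0 := by
    rw [a_pow hdat.mul, CharP.cast_eq_zero, zero_mul]
  have hmem := (hdat.ker _).1 haσ
  have h1 := hy ⟨_, hmem⟩
  rw [hy' _ ⟨_, hmem⟩ (cmp_pow hcmp _)] at h1
  have h2 : ((((cyc i₀ (σ ^ 3 ^ (k + 1))) ^ r : ℤ_[3]ˣ) : ℤ_[3]) - 1) ≠ 0 := by
    intro h
    apply hE
    unfold E
    rw [sub_eq_zero.1 h, om_one]
  have h3 : y = X * y' := by
    apply mul_left_cancel₀ h2
    rw [← h1]
    ring
  refine ⟨y', fun σ => ?_⟩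
  have h4 := hy σ
  rw [h3] at h4
  apply mul_left_cancel₀ hX
  rw [h4]
  ring

end Pool.Agent.N848.Sch
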